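import Pool.Agent.TH142.J327B

set_option autoImplicit false

open Polynomial

namespace Pool.Agent.TH142.J327

open TH160

section
variable {L : Type} [Field L] [Algebra ℂ L]

/-- derivations preserve `k[v]` -/
theorem der_aeval (k : IntermediateField ℂ L) (v : L) (D : Derivation ℂ L L)
    (hk : ∀ x ∈ k, D x ∈ k) (hv : D v = 0 ∨ D v = 1) (p : k[X]) :
    ∃ p' : k[X], D (aeval v p) = aeval v p' := by
  have hv' : ∃ q : k[X], D v = aeval v q := by
    rcases hv with h | h
    · exact ⟨0, by rw [h]; simp⟩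
    · exact ⟨1, by rw [h]; simp⟩
  obtain ⟨q, hq⟩ := hv'
  induction p using Polynomial.induction_on' with
  | add p r hp hr =>
    obtain ⟨p', hp'⟩ := hp
    obtain ⟨r', hr'⟩ := hr
    exact ⟨p' + r', by rw [map_add, map_add, map_add, hp', hr']⟩
  | monomial n c =>
    refine ⟨monomial n ⟨D c, hk c c.2⟩ + C c * C (n : k) * X ^ (n - 1) * q, ?_⟩
    have e1 : aeval v (monomial n c) = (c : L) * v ^ n := by
      rw [aeval_monomial]
      rfl
    have e2 : aeval v (monomial n (⟨D c, hk c c.2⟩ : k)) = D c * v ^ n := by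
      rw [aeval_monomial]
      rfl
    rw [e1, map_add, e2, D.leibniz, D.leibniz_pow, map_mul, map_mul, map_mul, aeval_C, aeval_C,
      map_pow, aeval_X, ← hq, smul_eq_mul, smul_eq_mul, smul_eq_mul, nsmul_eq_mul]
    have e3 : algebraMap k L c = (c : L) := rfl
    rw [e3, map_natCast]
    ring

theorem der_adjoin (u : L) (D : Derivation ℂ L L)
    (hu : D u = 0 ∨ D u = 1) : ∀ x ∈ IntermediateField.adjoin ℂ {u},
      D x ∈ IntermediateField.adjoin ℂ {u} := by
  intro x hx
  induction hx using IntermediateField.adjoin_induction with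
  | mem x hx =>
    rw [Set.mem_singleton_iff.mp hx]
    rcases hu with h | h
    · rw [h]; exact zero_mem _
    · rw [h]; exact one_mem _
  | algebraMap c =>
    rw [D.map_algebraMap]
    exact zero_mem _
  | add x y hx hy h1 h2 =>
    rw [map_add]
    exact add_mem h1 h2
  | inv x hx h1 =>
    rw [Derivation.leibniz_inv]
    exact mul_mem (neg_mem (pow_mem (inv_mem hx) 2)) h1
  | mul x y hx hy h1 h2 =>
    rw [D.leibniz]
    exact add_mem (mul_mem hx h2) (mul_mem hy h1)

end

/-- degree argument at infinity -/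
theorem both_zero {k L : Type} [Field k] [Field L] [Algebra k L] (v : L) (hv : Transcendental k v)
    (a : L) (h1 : a ∈ Algebra.adjoin k {v}) (h2 : a * v ^ 2 ∈ Algebra.adjoin k {v⁻¹}) : a = 0 := by
  obtain ⟨P, hP⟩ := (mem_adj v _).mp h1
  obtain ⟨Q, hQ⟩ := (mem_adj v⁻¹ _).mp h2
  have hv0 : v ≠ 0 := by
    rintro rfl
    exact hv isAlgebraic_zero
  have hinj : Function.Injective (aeval v : k[X] → L) := transcendental_iff_injective.mp hv
  have h3 : aeval v (Q.reverse) = v ^ Q.natDegree * aeval v⁻¹ Q := by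
    have hinv : Invertible (v⁻¹) := invertibleOfNonzero (inv_ne_zero hv0)
    have h := Polynomial.eval₂_reverse_mul_pow (algebraMap k L) v⁻¹ Q
    rw [invOf_eq_inv, inv_inv] at h
    rw [aeval_def, aeval_def, ← h, inv_pow]
    field_simp
  have h4 : Q.reverse = P * X ^ 2 * X ^ Q.natDegree := by
    apply hinj
    rw [h3, ← hQ, hP]
    simp only [map_mul, map_pow, aeval_X]
    ring
  by_contra ha
  have hP0 : P ≠ 0 := by
    rintro rfl
    apply ha
    rw [hP, map_zero]
  have h5 := congrArg natDegree h4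
  rw [natDegree_mul (mul_ne_zero hP0 (pow_ne_zero _ X_ne_zero)) (pow_ne_zero _ X_ne_zero),
    natDegree_mul hP0 (pow_ne_zero _ X_ne_zero), natDegree_X_pow, natDegree_X_pow] at h5
  have h6 := Polynomial.reverse_natDegree_le Q
  omega

section
variable {L : Type} [Field L] [Algebra ℂ L]

theorem mem_M_iff (u v : L) (x : L) : x ∈ IntermediateField.adjoin ℂ {u, v} ↔
    x ∈ IntermediateField.adjoin (IntermediateField.adjoin ℂ {u}) {v} := by
  have h := IntermediateField.adjoin_adjoin_left ℂ ({u} : Set L) {v}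
  have h2 : ({u} ∪ {v} : Set L) = {u, v} := by
    rw [Set.singleton_union]
  rw [h2] at h
  rw [← h]
  rfl

omit [Algebra ℂ L] in
theorem adj_inv {k : Type} [Field k] [Algebra k L] (v x : L) :
    x ∈ IntermediateField.adjoin k {v} ↔ x ∈ IntermediateField.adjoin k {v⁻¹} := by
  constructor
  · intro h
    refine (IntermediateField.adjoin_le_iff.mpr ?_) h
    rintro y rfl
    rw [← inv_inv y]
    exact inv_mem (IntermediateField.subset_adjoin _ _ (by simp))
  · intro h
    refine (IntermediateField.adjoin_le_iff.mpr ?_) h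
    rintro y rfl
    exact inv_mem (IntermediateField.subset_adjoin _ _ (by simp))

open IntermediateField.algebraAdjoinAdjoin in
theorem trans_v (u v : L) (h : AlgebraicIndependent ℂ ![u, v]) :
    Transcendental (IntermediateField.adjoin ℂ {u}) v := by
  have htr : Transcendental (Algebra.adjoin ℂ (![u, v] '' {0})) (![u, v] 1) :=
    h.transcendental_adjoin (by simp)
  have e : (![u, v] '' {0} : Set L) = {u} := by simp
  rw [e] at htr
  intro h2
  apply htr
  exact (IsFractionRing.isAlgebraic_iff (Algebra.adjoin ℂ ({u} : Set L))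
    (IntermediateField.adjoin ℂ ({u} : Set L)) L).mpr h2

end

theorem stmTrace (hcore : StmCore) : StmTrace := by
  intro L _ _ u v huv hfin hfr D1 D2 hD h hreg
  set M := IntermediateField.adjoin ℂ ({u, v} : Set L) with hM
  set k := IntermediateField.adjoin ℂ ({u} : Set L) with hk
  have hvt : Transcendental k v := trans_v u v huv
  have hv0 : v ≠ 0 := by
    rintro rfl
    exact hvt isAlgebraic_zero
  have hchar : CharZero L := charZero_of_injective_algebraMap (algebraMap ℂ L).injective
  set w := v⁻¹ with hw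
  have hwt : Transcendental k w := by
    intro h1
    apply hvt
    have := h1.inv
    rwa [hw, inv_inv] at this
  have mv : ∀ x, x ∈ M ↔ x ∈ IntermediateField.adjoin k {v} := fun x => mem_M_iff u v x
  have mw : ∀ x, x ∈ M ↔ x ∈ IntermediateField.adjoin k {w} := fun x =>
    (mem_M_iff u v x).trans (adj_inv v x)
  -- derivations
  set D2' : Derivation ℂ L L := (-v ^ 2) • D2 with hD2'
  have hD1k : ∀ x ∈ k, D1 x ∈ k := der_adjoin u D1 (Or.inr hD.h11)
  have hD2k0 : ∀ x ∈ k, D2 x = 0 := by
    intro x hx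
    induction hx using IntermediateField.adjoin_induction with
    | mem x hx =>
      rw [Set.mem_singleton_iff.mp hx]
      exact hD.h21
    | algebraMap c => exact D2.map_algebraMap c
    | add x y _ _ h1 h2 => rw [map_add, h1, h2, add_zero]
    | inv x _ h1 => rw [Derivation.leibniz_inv, h1, smul_zero]
    | mul x y _ _ h1 h2 => rw [D2.leibniz, h1, h2, smul_zero, smul_zero, add_zero]
  have hD2k : ∀ x ∈ k, D2 x ∈ k := fun x hx => by rw [hD2k0 x hx]; exact zero_mem _
  have hD2'k : ∀ x ∈ k, D2' x ∈ k := fun x hx => by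
    rw [hD2', Derivation.smul_apply, hD2k0 x hx, smul_zero]
    exact zero_mem _
  have hD1w : D1 w = 0 := by
    rw [hw, Derivation.leibniz_inv, hD.h12, smul_zero]
  have hD2'w : D2' w = 1 := by
    rw [hD2', Derivation.smul_apply, hw, Derivation.leibniz_inv, hD.h22]
    simp only [smul_eq_mul]
    field_simp
  have a1 := der_aeval k v D1 hD1k (Or.inl hD.h12)
  have a2 := der_aeval k v D2 hD2k (Or.inr hD.h22)
  have b1 := der_aeval k w D1 hD1k (Or.inl hD1w)
  have b2 := der_aeval k w D2' hD2'k (Or.inr hD2'w)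
  have hloc1 : ∀ O : ValuationSubring L, (∀ c : k, algebraMap k L c ∈ O) → v ∈ O →
      ∃ a ∈ O, ∃ b ∈ O, ∃ c ∈ O, h = c * (D1.restrictScalars ℤ a * D2.restrictScalars ℤ b -
        D2.restrictScalars ℤ a * D1.restrictScalars ℤ b) := by
    intro O hO _
    obtain ⟨a, ha, b, hb, c, hc, he⟩ := hreg O (fun c => hO (algebraMap ℂ k c))
    exact ⟨a, ha, b, hb, c, hc, he⟩
  have hloc2 : ∀ O : ValuationSubring L, (∀ c : k, algebraMap k L c ∈ O) → w ∈ O →
      ∃ a ∈ O, ∃ b ∈ O, ∃ c ∈ O, h * v ^ 2 = c * (D1.restrictScalars ℤ a *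
        D2'.restrictScalars ℤ b - D2'.restrictScalars ℤ a * D1.restrictScalars ℤ b) := by
    intro O hO _
    obtain ⟨a, ha, b, hb, c, hc, he⟩ := hreg O (fun c => hO (algebraMap ℂ k c))
    refine ⟨a, ha, b, hb, -c, O.neg_mem _ hc, ?_⟩
    rw [he]
    change c * br D1 D2 a b * v ^ 2 = -c * (D1 a * D2' b - D2' a * D1 b)
    rw [hD2', br, Derivation.smul_apply, Derivation.smul_apply, smul_eq_mul, smul_eq_mul]
    ring
  have hpos : 0 < Module.finrank M L := Module.finrank_pos
  have hcase : Module.finrank M L = 1 ∨ Module.finrank M L = 2 := by omega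
  rcases hcase with h1 | h2
  · have htop : M = ⊤ := IntermediateField.finrank_eq_one_iff_eq_top.mp h1
    have hall : ∀ z : L, z ∈ M := fun z => by rw [htop]; trivial
    have c1 : h ∈ Algebra.adjoin k {v} := lemT1 hcore k L v hvt (fun z => (mv z).mp (hall z))
      (D1.restrictScalars ℤ) (D2.restrictScalars ℤ) a1 a2 h hloc1
    have c2 : h * v ^ 2 ∈ Algebra.adjoin k {w} := lemT1 hcore k L w hwt
      (fun z => (mw z).mp (hall z)) (D1.restrictScalars ℤ) (D2'.restrictScalars ℤ) b1 b2
      (h * v ^ 2) hloc2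
    rw [both_zero v hvt h c1 c2, map_zero]
  · -- degree two
    have hne : ∃ x : L, x ∉ M := by
      by_contra hcon
      push Not at hcon
      have htop : M = ⊤ := by
        rw [eq_top_iff]
        intro x _
        exact hcon x
      rw [IntermediateField.finrank_eq_one_iff_eq_top.mpr htop] at h2
      omega
    obtain ⟨x, hx⟩ := hne
    have hli : LinearIndependent M ![(1 : L), x] := by
      rw [LinearIndependent.pair_iff]
      intro p q hpq
      rw [Algebra.smul_def, Algebra.smul_def, mul_one] at hpq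
      have hq : q = 0 := by
        by_contra hq
        apply hx
        have hq' : (q : L) ≠ 0 := fun h => hq (Subtype.ext h)
        have : x = -(p : L) / (q : L) := by
          rw [eq_div_iff hq']
          change (p : L) + (q : L) * x = 0 at hpq
          linear_combination hpq
        rw [this]
        exact div_mem (neg_mem p.2) q.2
      subst hq
      refine ⟨?_, rfl⟩
      rw [map_zero, zero_mul, add_zero] at hpq
      exact Subtype.ext hpq
    have hspan0 : ∀ z : L, ∃ p ∈ M, ∃ q ∈ M, z = p + q * x := by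
      intro z
      have htop := hli.span_eq_top_of_card_eq_finrank (by rw [h2]; simp)
      have hz : z ∈ Submodule.span M (Set.range ![(1 : L), x]) := by rw [htop]; trivial
      rw [Matrix.range_cons, Matrix.range_cons, Matrix.range_empty, Set.union_empty,
        Set.singleton_union, Submodule.mem_span_pair] at hz
      obtain ⟨p, q, hz⟩ := hz
      refine ⟨p, p.2, q, q.2, ?_⟩
      rw [← hz, Algebra.smul_def, Algebra.smul_def, mul_one]
      rfl
    obtain ⟨p, hp, q, hq, hx2⟩ := hspan0 (x ^ 2)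
    set s0 := 2 * x - q with hs0
    have h2M : (2 : L) ∈ M := ofNat_mem _ 2
    have h2L : (2 : L) ≠ 0 := by norm_num
    have hs0M : s0 ∉ M := by
      intro h3
      apply hx
      have : x = (s0 + q) / 2 := by rw [hs0]; ring
      rw [this]
      exact div_mem (add_mem h3 hq) h2M
    have hs02 : s0 ^ 2 = 4 * p + q ^ 2 := by
      rw [hs0]
      linear_combination 4 * hx2
    have h4M : 4 * p + q ^ 2 ∈ M := add_mem (mul_mem (ofNat_mem _ 4) hp) (pow_mem hq 2)
    have hspan : ∀ z : L, ∃ a ∈ M, ∃ c ∈ M, z = a + c * s0 := by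
      intro z
      obtain ⟨α, hα, β, hβ, hz⟩ := hspan0 z
      refine ⟨α + β * q / 2, add_mem hα (div_mem (mul_mem hβ hq) h2M), β / 2,
        div_mem hβ h2M, ?_⟩
      rw [hz, hs0]
      ring
    obtain ⟨a, ha, c, hc, hac⟩ := hspan h
    have c1 : a ∈ Algebra.adjoin k {v} := by
      refine lemT hcore k L v s0 hvt (fun h3 => hs0M ((mv s0).mpr h3)) ((mv _).mp (hs02 ▸ h4M))
        ?_ (D1.restrictScalars ℤ) (D2.restrictScalars ℤ) a1 a2 h hloc1 a c ((mv a).mp ha)
        ((mv c).mp hc) hac
      intro z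
      obtain ⟨a, ha, c, hc, hz⟩ := hspan z
      exact ⟨a, (mv a).mp ha, c, (mv c).mp hc, hz⟩
    have hvM : v ∈ M := IntermediateField.subset_adjoin _ _ (by simp)
    have c2 : a * v ^ 2 ∈ Algebra.adjoin k {w} := by
      refine lemT hcore k L w s0 hwt (fun h3 => hs0M ((mw s0).mpr h3)) ((mw _).mp (hs02 ▸ h4M))
        ?_ (D1.restrictScalars ℤ) (D2'.restrictScalars ℤ) b1 b2 (h * v ^ 2) hloc2 (a * v ^ 2)
        (c * v ^ 2) ((mw _).mp (mul_mem ha (pow_mem hvM 2)))
        ((mw _).mp (mul_mem hc (pow_mem hvM 2))) (by rw [hac]; ring)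
      intro z
      obtain ⟨a, ha, c, hc, hz⟩ := hspan z
      exact ⟨a, (mw a).mp ha, c, (mw c).mp hc, hz⟩
    have ha0 : a = 0 := both_zero v hvt a c1 c2
    have htr := trace_formula (K := M) s0 (fun x hx => hs0M (hx ▸ x.2)) ⟨4 * p + q ^ 2, h4M⟩ hs02
      (by
        intro z
        obtain ⟨a, ha, c, hc, hz⟩ := hspan z
        exact ⟨⟨a, ha⟩, ⟨c, hc⟩, hz⟩) ⟨a, ha⟩ ⟨c, hc⟩
    have hh : h = algebraMap M L ⟨a, ha⟩ + algebraMap M L ⟨c, hc⟩ * s0 := hac
    rw [hh, htr]
    have : (⟨a, ha⟩ : M) = 0 := Subtype.ext ha0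
    rw [this, mul_zero]

end Pool.Agent.TH142.J327
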