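import Pool.Agent.TH160.Stm

set_option autoImplicit false

open Polynomial

namespace Pool.Agent.TH142.J330

open TH160

section
variable {L : Type} [Field L] [Algebra ℂ L]

theorem range2 {L : Type} (a b : L) : Set.range ![a, b] = {a, b} := by
  rw [Matrix.range_cons, Matrix.range_cons, Matrix.range_empty, Set.union_empty]
  rfl

open IntermediateField.algebraAdjoinAdjoin in
theorem ai_of_alg (u v a b : L) (h : AlgebraicIndependent ℂ ![u, v])
    (halg : Algebra.IsAlgebraic (IntermediateField.adjoin ℂ {a, b}) L) :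
    AlgebraicIndependent ℂ ![a, b] := by
  have h1 : Algebra.IsAlgebraic (Algebra.adjoin ℂ ({a, b} : Set L)) L := by
    rwa [IsFractionRing.comap_isAlgebraic_iff (A := Algebra.adjoin ℂ ({a, b} : Set L))
      (K := IntermediateField.adjoin ℂ ({a, b} : Set L)) (C := L)]
  rw [← range2 a b] at h1
  have h2 := h.cardinalMk_le_trdeg
  exact (Algebra.IsAlgebraic.isTranscendenceBasis_of_le_trdeg_of_finite ℂ ![a, b] h2).1

theorem fin_of_quad (E : IntermediateField ℂ L) (y p0 p1 p2 : L) (h0 : p0 ∈ E) (h1 : p1 ∈ E)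
    (h2 : p2 ∈ E) (hne : p0 ≠ 0 ∨ p1 ≠ 0 ∨ p2 ≠ 0) (h : p0 + p1 * y + p2 * y ^ 2 = 0)
    (htop : IntermediateField.adjoin E {y} = ⊤) :
    Module.Finite E L ∧ Module.finrank E L ≤ 2 := by
  set q : E[X] := C ⟨p0, h0⟩ + C ⟨p1, h1⟩ * X + C ⟨p2, h2⟩ * X ^ 2 with hq
  have c0 : q.coeff 0 = ⟨p0, h0⟩ := by simp [hq]
  have c1 : q.coeff 1 = ⟨p1, h1⟩ := by simp [hq]
  have c2 : q.coeff 2 = ⟨p2, h2⟩ := by simp [hq]
  have hq0 : q ≠ 0 := by
    intro h3
    rcases hne with h4 | h4 | h4
    · apply h4
      have : q.coeff 0 = 0 := by rw [h3]; simp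
      rw [c0] at this
      exact congrArg Subtype.val this
    · apply h4
      have : q.coeff 1 = 0 := by rw [h3]; simp
      rw [c1] at this
      exact congrArg Subtype.val this
    · apply h4
      have : q.coeff 2 = 0 := by rw [h3]; simp
      rw [c2] at this
      exact congrArg Subtype.val this
  have hdeg : q.natDegree ≤ 2 := by
    rw [hq]
    compute_degree
  have haev : aeval y q = 0 := by
    rw [hq]
    simp only [map_add, map_mul, aeval_C, aeval_X, map_pow]
    exact h
  have hint : IsIntegral E y := isAlgebraic_iff_isIntegral.mp ⟨q, hq0, haev⟩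
  have hfr : Module.finrank E (IntermediateField.adjoin E {y}) ≤ 2 := by
    rw [IntermediateField.adjoin.finrank hint]
    exact (natDegree_le_of_dvd (minpoly.dvd E y haev) hq0).trans hdeg
  have hfin : FiniteDimensional E (IntermediateField.adjoin E {y}) :=
    IntermediateField.adjoin.finiteDimensional hint
  rw [htop] at hfr hfin
  have e := (IntermediateField.topEquiv (F := E) (E := L)).toLinearEquiv
  refine ⟨Module.Finite.equiv e, ?_⟩
  rw [← e.finrank_eq]
  exact hfr

theorem mem_base (E : IntermediateField ℂ L) (K : IntermediateField E L) {x : L} (hx : x ∈ E) :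
    x ∈ K := K.algebraMap_mem ⟨x, hx⟩

theorem aeval_mem'' (E : Subalgebra ℂ L) {t : L} (ht : t ∈ E) (p : ℂ[X]) : aeval t p ∈ E := by
  have : aeval t p = ((aeval (⟨t, ht⟩ : E) p : E) : L) := by
    rw [← Subalgebra.coe_val, ← Polynomial.aeval_algHom_apply]
    rfl
  rw [this]
  exact Subtype.property _

theorem aeval_mem' (E : IntermediateField ℂ L) {t : L} (ht : t ∈ E) (p : ℂ[X]) :
    aeval t p ∈ E :=
  aeval_mem'' E.toSubalgebra ht p

theorem main_aux (t y z xi p0 p1 p2 : L) (h : AlgebraicIndependent ℂ ![t, y])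
    (htop : IntermediateField.adjoin ℂ {t, y, z} = ⊤)
    (h0 : p0 ∈ IntermediateField.adjoin ℂ {t, xi}) (h1 : p1 ∈ IntermediateField.adjoin ℂ {t, xi})
    (h2 : p2 ∈ IntermediateField.adjoin ℂ {t, xi}) (hne : p0 ≠ 0 ∨ p1 ≠ 0 ∨ p2 ≠ 0)
    (hp : p0 + p1 * y + p2 * y ^ 2 = 0)
    (hz : z ∈ IntermediateField.adjoin (IntermediateField.adjoin ℂ {t, xi}) {y}) :
    ∃ u v : L, AlgebraicIndependent ℂ ![u, v] ∧
      Module.Finite (IntermediateField.adjoin ℂ {u, v}) L ∧
      Module.finrank (IntermediateField.adjoin ℂ {u, v}) L ≤ 2 := by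
  set E := IntermediateField.adjoin ℂ {t, xi} with hE
  have hE1 : t ∈ E := IntermediateField.subset_adjoin _ _ (by simp)
  have htop2 : IntermediateField.adjoin E {y} = ⊤ := by
    rw [eq_top_iff]
    intro x _
    have hx : x ∈ IntermediateField.adjoin ℂ {t, y, z} := by rw [htop]; trivial
    have hle : IntermediateField.adjoin ℂ {t, y, z} ≤
        (IntermediateField.adjoin E {y}).restrictScalars ℂ := by
      rw [IntermediateField.adjoin_le_iff]
      intro w hw
      rcases hw with rfl | rfl | rfl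
      · exact (IntermediateField.adjoin E {y}).algebraMap_mem ⟨w, hE1⟩
      · exact IntermediateField.subset_adjoin E {w} (by simp)
      · exact hz
    exact hle hx
  obtain ⟨hf, hr⟩ := fin_of_quad E y p0 p1 p2 h0 h1 h2 hne hp htop2
  exact ⟨t, xi, ai_of_alg t y t xi h inferInstance, hf, hr⟩

end

theorem stmUB : StmUB := by
  intro A B C hA hB hC L _ _ t y z h heq htop ⟨a, b, c, habc, hABC⟩
  have ht : Function.Injective (aeval t : ℂ[X] → L) := by
    have := h.transcendental 0
    exact transcendental_iff_injective.mp this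
  have hn : ∀ p : ℂ[X], p ≠ 0 → aeval t p ≠ 0 := fun p hp h' =>
    hp (ht (by rw [h', map_zero]))
  set At := aeval t A with hAt
  set Bt := aeval t B with hBt
  set Ct := aeval t C with hCt
  have hA' : At ≠ 0 := hn A hA
  have hB' : Bt ≠ 0 := hn B hB
  have hC' : Ct ≠ 0 := hn C hC
  have hrel : At * (aeval t a) ^ 3 + Bt * (aeval t b) ^ 3 + Ct * (aeval t c) ^ 3 = 0 := by
    have := congrArg (aeval t) hABC
    simpa using this
  by_cases ha : a = 0
  · -- a = 0
    have hb : b ≠ 0 := by
      rintro rfl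
      subst ha
      simp only [map_zero, ne_eq, OfNat.ofNat_ne_zero, not_false_eq_true, zero_pow, mul_zero,
        zero_add, mul_eq_zero, hC', false_or, pow_eq_zero_iff] at hrel
      have hc : c = 0 := by
        by_contra hc
        exact hn c hc hrel
      simp [hc] at habc
    have hb' : aeval t b ≠ 0 := hn b hb
    set z0 := aeval t c / aeval t b with hz0
    set xi := z - z0 * y with hxi
    have hBC : Bt + Ct * z0 ^ 3 = 0 := by
      rw [hz0]
      field_simp
      rw [ha, map_zero] at hrel
      linear_combination hrel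
    have hE1 : t ∈ IntermediateField.adjoin ℂ {t, xi} :=
      IntermediateField.subset_adjoin _ _ (by simp)
    have hE2 : xi ∈ IntermediateField.adjoin ℂ {t, xi} :=
      IntermediateField.subset_adjoin _ _ (by simp)
    have hEp := aeval_mem' (IntermediateField.adjoin ℂ {t, xi}) hE1
    have hE3 : z0 ∈ IntermediateField.adjoin ℂ {t, xi} := div_mem (hEp c) (hEp b)
    have h3 : (3 : L) ∈ IntermediateField.adjoin ℂ {t, xi} := ofNat_mem _ 3
    refine main_aux t y z xi (At + Ct * xi ^ 3) (3 * Ct * z0 * xi ^ 2) (3 * Ct * z0 ^ 2 * xi) h htop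
      (add_mem (hEp A) (mul_mem (hEp C) (pow_mem hE2 3)))
      (mul_mem (mul_mem (mul_mem h3 (hEp C)) hE3) (pow_mem hE2 2))
      (mul_mem (mul_mem (mul_mem h3 (hEp C)) (pow_mem hE3 2)) hE2) ?_ ?_ ?_
    · by_contra hcon
      push Not at hcon
      obtain ⟨e1, _, e3⟩ := hcon
      have hz0' : z0 ≠ 0 := by
        intro h4
        rw [h4] at hBC
        apply hB'
        simpa using hBC
      have h30 : (3 : L) ≠ 0 := by
        have : CharZero L := charZero_of_injective_algebraMap (algebraMap ℂ L).injective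
        norm_num
      have hxi0 : xi = 0 := by
        have := mul_eq_zero.mp e3
        rcases this with h5 | h5
        · exact absurd h5 (mul_ne_zero (mul_ne_zero h30 hC') (pow_ne_zero 2 hz0'))
        · exact h5
      apply hA'
      rw [hxi0] at e1
      simpa using e1
    · have hz : z = xi + z0 * y := by rw [hxi]; ring
      rw [hz] at heq
      linear_combination heq - y ^ 3 * hBC
    · have hz : z = xi + z0 * y := by rw [hxi]; ring
      rw [hz]
      exact add_mem (mem_base _ _ hE2)
        (mul_mem (mem_base _ _ hE3)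
          (IntermediateField.subset_adjoin _ _ (by simp)))
  · -- a ≠ 0
    have ha' : aeval t a ≠ 0 := hn a ha
    set y0 := aeval t b / aeval t a with hy0
    set z0 := aeval t c / aeval t a with hz0
    have hyy : y - y0 ≠ 0 := by
      intro h4
      have htr : Transcendental (Algebra.adjoin ℂ (![t, y] '' {0})) (![t, y] 1) :=
        h.transcendental_adjoin (by simp)
      have hm : ∀ p : ℂ[X], aeval t p ∈ Algebra.adjoin ℂ (![t, y] '' {0}) := by
        intro p
        have : t ∈ Algebra.adjoin ℂ (![t, y] '' {0}) := Algebra.subset_adjoin (by simp)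
        exact aeval_mem'' _ this p
      apply htr
      refine ⟨Polynomial.C ⟨aeval t a, hm a⟩ * X - Polynomial.C ⟨aeval t b, hm b⟩, ?_, ?_⟩
      · intro h5
        have h6 := congrArg (fun p => coeff p 1) h5
        simp only [coeff_sub, coeff_C_mul, coeff_X_one, mul_one, coeff_C_succ, sub_zero,
          coeff_zero] at h6
        exact ha' (congrArg Subtype.val h6)
      · simp only [map_sub, map_mul, aeval_C, aeval_X]
        change aeval t a * y - aeval t b = 0
        have h7 : y = y0 := sub_eq_zero.mp h4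
        rw [h7, hy0]
        field_simp
        ring
    set xi := (z - z0) / (y - y0) with hxi
    have hz : z = z0 + xi * (y - y0) := by
      rw [hxi]
      field_simp
      ring
    have hBC : At + Bt * y0 ^ 3 + Ct * z0 ^ 3 = 0 := by
      rw [hy0, hz0]
      field_simp
      linear_combination hrel
    have hE1 : t ∈ IntermediateField.adjoin ℂ {t, xi} :=
      IntermediateField.subset_adjoin _ _ (by simp)
    have hE2 : xi ∈ IntermediateField.adjoin ℂ {t, xi} :=
      IntermediateField.subset_adjoin _ _ (by simp)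
    have hEp := aeval_mem' (IntermediateField.adjoin ℂ {t, xi}) hE1
    have hE3 : z0 ∈ IntermediateField.adjoin ℂ {t, xi} := div_mem (hEp c) (hEp a)
    have hE4 : y0 ∈ IntermediateField.adjoin ℂ {t, xi} := div_mem (hEp b) (hEp a)
    have h2 : (2 : L) ∈ IntermediateField.adjoin ℂ {t, xi} := ofNat_mem _ 2
    have h3 : (3 : L) ∈ IntermediateField.adjoin ℂ {t, xi} := ofNat_mem _ 3
    refine main_aux t y z xi
      (Bt * y0 ^ 2 + 3 * Ct * z0 ^ 2 * xi - 3 * Ct * z0 * xi ^ 2 * y0 + Ct * xi ^ 3 * y0 ^ 2)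
      (Bt * y0 + 3 * Ct * z0 * xi ^ 2 - 2 * Ct * xi ^ 3 * y0) (Bt + Ct * xi ^ 3) h htop
      (add_mem (sub_mem (add_mem (mul_mem (hEp B) (pow_mem hE4 2))
        (mul_mem (mul_mem (mul_mem h3 (hEp C)) (pow_mem hE3 2)) hE2))
        (mul_mem (mul_mem (mul_mem (mul_mem h3 (hEp C)) hE3) (pow_mem hE2 2)) hE4))
        (mul_mem (mul_mem (hEp C) (pow_mem hE2 3)) (pow_mem hE4 2)))
      (sub_mem (add_mem (mul_mem (hEp B) hE4)
        (mul_mem (mul_mem (mul_mem h3 (hEp C)) hE3) (pow_mem hE2 2)))
        (mul_mem (mul_mem (mul_mem h2 (hEp C)) (pow_mem hE2 3)) hE4))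
      (add_mem (hEp B) (mul_mem (hEp C) (pow_mem hE2 3))) ?_ ?_ ?_
    · by_contra hcon
      push Not at hcon
      obtain ⟨_, e2, e3⟩ := hcon
      have h30 : (3 : L) ≠ 0 := by
        have : CharZero L := charZero_of_injective_algebraMap (algebraMap ℂ L).injective
        norm_num
      have h5 : 3 * Bt * (y0 * xi - z0) = 0 := by
        linear_combination xi * e2 + (2 * xi * y0 - 3 * z0) * e3
      have h6 : y0 * xi - z0 = 0 := by
        rcases mul_eq_zero.mp h5 with h7 | h7
        · exact absurd h7 (mul_ne_zero h30 hB')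
        · exact h7
      apply hA'
      have h8 : z0 = y0 * xi := (sub_eq_zero.mp h6).symm
      rw [h8] at hBC
      linear_combination hBC - y0 ^ 3 * e3
    · rw [hz] at heq
      have h9 : (y - y0) * (Bt * y0 ^ 2 + 3 * Ct * z0 ^ 2 * xi - 3 * Ct * z0 * xi ^ 2 * y0 +
          Ct * xi ^ 3 * y0 ^ 2 + (Bt * y0 + 3 * Ct * z0 * xi ^ 2 - 2 * Ct * xi ^ 3 * y0) * y +
          (Bt + Ct * xi ^ 3) * y ^ 2) = 0 := by
        linear_combination heq - hBC
      rcases mul_eq_zero.mp h9 with h10 | h10
      · exact absurd h10 hyy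
      · exact h10
    · rw [hz]
      exact add_mem (mem_base _ _ hE3)
        (mul_mem (mem_base _ _ hE2)
          (sub_mem (IntermediateField.subset_adjoin _ _ (by simp))
            (mem_base _ _ hE4)))

end Pool.Agent.TH142.J330
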