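import Pool.Agent.TH142.C3.F
set_option autoImplicit false
namespace Pool.Agent.TH142.J520
open Pool.Agent.TH716.C3 Pool.Agent.Helper281.Sc
theorem result : S_Z := Pool.Agent.TH142.C3.sZ
end Pool.Agent.TH142.J520
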