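import Pool.Agent.TH142.C3.B

set_option autoImplicit false

namespace Pool.Agent.TH142.J521

open Pool.Agent.TH716.C3 Pool.Agent.Helper281.Sc

theorem result : S_Kcx ∧ S_Khol ∧ S_Ktriv :=
  ⟨Pool.Agent.TH142.C3.kcx, Pool.Agent.TH142.C3.khol, Pool.Agent.TH142.C3.ktriv⟩

end Pool.Agent.TH142.J521
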