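import Pool.Agent.TH142.C3.C

set_option autoImplicit false

namespace Pool.Agent.TH142.J522

open Pool.Agent.TH716.C3 Pool.Agent.Helper281.Sc

theorem result : S_Kext ∧ S_KH2 :=
  ⟨Pool.Agent.TH142.C3.kext, Pool.Agent.TH142.C3.kH2⟩

end Pool.Agent.TH142.J522
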