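import Mathlib
import Pool.Agent.TH202.FlRes
import Pool.Agent.TH202.Cen
import Pool.Agent.TH202.RL
import Pool.Agent.TH202.PrimeOf
import Pool.Agent.TH551.C8_XM1

/-!
# A criterion for prime divisors on a model, and the transcendence degree of `K`
-/

set_option autoImplicit false

namespace Pool.Agent.TH142.FL_PRIME

open Pool.Agent.H436R3.Fol Pool.Agent.TH202 MvPolynomial

section
variable {K : Type} [Field K] [Algebra ℂ K]

theorem reg_aeval2 {v : DVal K} {f g : K} (hf : v.Reg f) (hg : v.Reg g)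
    (q : MvPolynomial (Fin 2) ℂ) : v.Reg (aeval ![f, g] q) := by
  induction q using MvPolynomial.induction_on with
  | C z => rw [aeval_C]; exact v.reg_const z
  | add p q hp hq => rw [map_add]; exact v.reg_add hp hq
  | mul_X p i hp =>
    rw [map_mul, aeval_X]
    refine v.reg_mul hp ?_
    fin_cases i
    · exact hf
    · exact hg

theorem ord_of_ind2 {v : DVal K} {f g : K} (h : Ind2 v f g) {q : MvPolynomial (Fin 2) ℂ}
    (hq : q ≠ 0) : aeval ![f, g] q ≠ 0 ∧ v.ord (aeval ![f, g] q) = 0 := by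
  have h1 := h.2.2 q hq
  have h2 := reg_aeval2 h.1 h.2.1 q
  have h3 : aeval ![f, g] q ≠ 0 := fun h0 => h1 (Or.inl h0)
  refine ⟨h3, ?_⟩
  have h4 := h2.resolve_left h3
  have h5 : ¬ 0 < v.ord (aeval ![f, g] q) := fun h => h1 (Or.inr h)
  omega

end

section
variable {K : Type} [Field K] [Algebra ℂ K] [Algebra.EssFiniteType ℂ K]

theorem prime_of_ind2' (h3 : Algebra.trdeg ℂ K = 3) {Y : Model K} (x : Pt Y) (v : DVal K)
    (hx : ∀ s : Y.R x.i, s ∈ x.p ↔ v.Pos (s : K)) (hreg : ∀ f ∈ Y.R x.i, v.Reg f) {a b : K}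
    (ha : x.Mem a) (hb : x.Mem b) (hv : Ind2 v a b) : IsPrimeOn Y v := by
  have hthr : x.Thr v := (x.thr_iff v).2 ⟨hreg, fun s hs => (hx s).2 hs⟩
  -- a nonzero element of the centre
  obtain ⟨π, hπ, hπ1⟩ := v.surj
  obtain ⟨u, t, hu, ht, ht0, hut⟩ := R_frac Y x.i π
  have hu0 : u ≠ 0 := by rw [← hut]; exact mul_ne_zero hπ ht0
  have hup : v.Pos u := by
    right
    rw [← hut, v.map_mul _ _ hπ ht0, hπ1]
    have := v.ord_nonneg ht0 (hreg t ht)
    omega
  -- a prime divisor through `x` on which `u` vanishes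
  obtain ⟨w, hw, hwx, hwu⟩ : ∃ w : DVal K, IsLocalRing' (Y.R x.i) w ∧
      (∀ s : Y.R x.i, w.Pos (s : K) → s ∈ x.p) ∧ ¬ w.Reg u⁻¹ := by
    by_contra hc
    push Not at hc
    obtain ⟨s, hs, hsu⟩ := Pool.Agent.TH670.C8_HARTP.hartogs_local (R_fg (X := Y) x.i) (R_frac Y x.i)
      (R_normal Y x.i) x.p x.prime (F := u⁻¹) fun w hw hwx => hc w hw hwx
    have h1 := hreg _ hsu
    have hs0 : (s : K) ≠ 0 := by
      intro h0
      exact hs ((hx s).2 (Or.inl h0))
    have h2 := h1.resolve_left (mul_ne_zero hs0 (inv_ne_zero hu0))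
    rw [v.map_mul _ _ hs0 (inv_ne_zero hu0), v.ord_inv hu0] at h2
    have h3 : ¬ 0 < v.ord (s : K) := fun h => hs ((hx s).2 (Or.inr h))
    have h4 := hup.resolve_left hu0
    omega
  have hthrw : x.Thr w := (x.thr_iff w).2 ⟨hw.1, hwx⟩
  have hwupos : w.Pos u := by
    right
    by_contra hc
    apply hwu
    right
    rw [w.ord_inv hu0]
    omega
  refine ⟨x.i, ?_⟩
  by_cases hkey : ∀ f ∈ Y.R x.i, v.Pos f → w.Pos f
  · -- the valuations agree
    have hag : ∀ {f : K}, f ≠ 0 → w.ord f = v.ord f := fun hf => agree_of_key hw hreg hkey hf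
    refine ⟨hreg, fun f hf => ?_⟩
    have hf' : w.Reg f := by
      by_cases h0 : f = 0
      · exact Or.inl h0
      · right
        rw [hag h0]
        exact hf.resolve_left h0
    obtain ⟨p, q, hp, hq, hq0, hq1, hpq⟩ := hw.2 f hf'
    exact ⟨p, q, hp, hq, hq0, by rw [← hag hq0]; exact hq1, hpq⟩
  · exfalso
    push Not at hkey
    obtain ⟨h, hh, hvh, hwh⟩ := hkey
    have hh0 : h ≠ 0 := fun h0 => hwh (Or.inl h0)
    have hwh0 : w.ord h = 0 := by
      have h1 := w.ord_nonneg hh0 (hw.1 h hh)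
      have h2 : ¬ 0 < w.ord h := fun h2 => hwh (Or.inr h2)
      omega
    set S2 := Algebra.adjoin ℂ (Set.range ![a, b]) with hS2
    have hS2v : ∀ q ∈ S2, q ≠ 0 → v.ord q = 0 := by
      intro q hq hq0
      rw [hS2, Algebra.adjoin_range_eq_range_aeval] at hq
      obtain ⟨q', rfl⟩ := hq
      refine (ord_of_ind2 hv ?_).2
      rintro rfl
      exact hq0 (map_zero _)
    have hS2r : ∀ q : S2, v.Reg (algebraMap S2 K q) := by
      intro q
      by_cases h0 : (q : K) = 0
      · exact Or.inl h0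
      · exact Or.inr (hS2v q q.2 h0).ge
    have hS2p : ∀ q : S2, q ≠ 0 → ¬ v.Pos (algebraMap S2 K q) := by
      rintro q hq (h1 | h1)
      · exact hq (Subtype.ext h1)
      · change 0 < v.ord (q : K) at h1
        rw [hS2v q q.2 fun h0 => hq (Subtype.ext h0)] at h1
        exact lt_irrefl _ h1
    -- `a, b, h` are algebraically independent
    have hab : AlgebraicIndependent ℂ ![a, b] := by
      rw [algebraicIndependent_iff]
      intro q hq
      by_contra hq0
      exact (ord_of_ind2 hv hq0).1 hq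
    have htr : Transcendental S2 h := by
      rintro ⟨P, hP, hPh⟩
      obtain ⟨q, hq, hqv⟩ := res_drop v (algebraMap S2 K) hS2r hh0 hvh hP hPh
      exact hS2p q hq hqv
    set x3 : Option (Fin 2) → K := fun o => o.elim h ![a, b] with hx3
    have hind3 : AlgebraicIndependent ℂ x3 := (hab.option_iff_transcendental h).2 htr
    have htrd : Algebra.trdeg ℂ K = 3 := h3
    have hbas3 : IsTranscendenceBasis ℂ x3 := by
      refine hind3.isTranscendenceBasis_of_trdeg_le ?_ ?_
      · rw [htrd]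
        exact_mod_cast Cardinal.natCast_lt_aleph0 (n := 3)
      · rw [htrd]
        simp
    have halg3 := hbas3.isAlgebraic
    set S3 := Algebra.adjoin ℂ (Set.range x3) with hS3
    have hlocS3 : S3 ≤ x.loc := by
      rw [hS3]
      refine Algebra.adjoin_le ?_
      rintro _ ⟨o, rfl⟩
      rcases o with _ | o
      · exact x.mem_of_R hh
      · fin_cases o
        · exact ha
        · exact hb
    have hS3w : ∀ q : S3, w.Reg (algebraMap S3 K q) := fun q => hthrw _ (hlocS3 q.2)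
    obtain ⟨P, hP, hPu⟩ := halg3.1 u
    obtain ⟨q3, hq3, hq3w⟩ := res_drop w (algebraMap S3 K) hS3w hu0 hwupos hP hPu
    -- `q3` is a polynomial in `h` over `S2`
    have hpoly : ∀ q ∈ S3, ∃ P : Polynomial S2, P.eval₂ (algebraMap S2 K) h = q := by
      intro q hq
      refine Algebra.adjoin_induction (p := fun q _ => ∃ P : Polynomial S2,
        P.eval₂ (algebraMap S2 K) h = q) ?_ ?_ ?_ ?_ hq
      · rintro _ ⟨o, rfl⟩
        rcases o with _ | o
        · exact ⟨Polynomial.X, Polynomial.eval₂_X _ _⟩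
        · refine ⟨Polynomial.C ⟨![a, b] o, Algebra.subset_adjoin ⟨o, rfl⟩⟩, ?_⟩
          rw [Polynomial.eval₂_C]
          rfl
      · intro c
        refine ⟨Polynomial.C (algebraMap ℂ S2 c), ?_⟩
        rw [Polynomial.eval₂_C]
        rfl
      · rintro f g _ _ ⟨P, rfl⟩ ⟨Q, rfl⟩
        exact ⟨P + Q, Polynomial.eval₂_add _ _⟩
      · rintro f g _ _ ⟨P, rfl⟩ ⟨Q, rfl⟩
        exact ⟨P * Q, Polynomial.eval₂_mul _ _⟩
    obtain ⟨P3, hP3⟩ := hpoly q3 q3.2
    have hq30 : (q3 : K) ≠ 0 := fun h0 => hq3 (Subtype.ext h0)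
    have hP30 : P3 ≠ 0 := by
      rintro rfl
      rw [Polynomial.eval₂_zero] at hP3
      exact hq30 hP3.symm
    obtain ⟨k, Q, rfl, hQ0⟩ := trailing hP30
    set z := Q.eval₂ (algebraMap S2 K) h with hz
    rw [Polynomial.eval₂_mul, Polynomial.eval₂_pow, Polynomial.eval₂_X, ← hz] at hP3
    have hz0 : z ≠ 0 := by
      intro h0
      rw [h0, mul_zero] at hP3
      exact hq30 hP3.symm
    have hzw : 0 < w.ord z := by
      have h1 := hq3w.resolve_left hq30
      change 0 < w.ord (q3 : K) at h1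
      rw [← hP3, w.map_mul _ _ (pow_ne_zero _ hh0) hz0, w.ord_pow hh0, hwh0] at h1
      simpa using h1
    have hzx : x.Mem z := by
      have h1 : ∀ P : Polynomial S2, P.eval₂ (algebraMap S2 K) h ∈ x.loc := by
        intro P
        induction P using Polynomial.induction_on' with
        | add p q hp hq => rw [Polynomial.eval₂_add]; exact add_mem hp hq
        | monomial n a =>
          rw [Polynomial.eval₂_monomial]
          refine mul_mem ?_ (pow_mem (Pt.mem_loc.2 (x.mem_of_R hh)) n)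
          have h2 : S2 ≤ x.loc := by
            rw [hS2]
            refine Algebra.adjoin_le ?_
            rintro _ ⟨o, rfl⟩
            fin_cases o
            · exact ha
            · exact hb
          exact h2 a.2
      exact h1 Q
    obtain ⟨t', ht', htz⟩ := hzx
    have ht0' : (t' : K) ≠ 0 := fun h0 => ht' ((hx t').2 (Or.inl h0))
    have h1 : w.Pos ((t' : K) * z) := w.pos_mul_left (hw.1 _ t'.2) (Or.inr hzw)
    have h2 : v.Pos ((t' : K) * z) := (hx ⟨_, htz⟩).1 (hwx ⟨_, htz⟩ h1)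
    have h3 : v.Pos z := by
      right
      have h4 := h2.resolve_left (mul_ne_zero ht0' hz0)
      rw [v.map_mul _ _ ht0' hz0] at h4
      have h5 : ¬ 0 < v.ord (t' : K) := fun h => ht' ((hx t').2 (Or.inr h))
      omega
    exact hS2p _ hQ0 (pos_coeff_zero v (algebraMap S2 K) hS2r hvh h3)

/-- A criterion for prime divisors on a model. -/
theorem prime_of_ind2 (h3 : Algebra.trdeg ℂ K = 3) {Y : Model K} (x : Pt Y) (w : DVal K)
    (hx : ∀ s : Y.R x.i, s ∈ x.p ↔ w.Pos (s : K)) (hreg : ∀ f ∈ Y.R x.i, w.Reg f) {f g : K}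
    (hf : x.Mem f) (hg : x.Mem g) (h : Ind2 w f g) : IsPrimeOn Y w :=
  prime_of_ind2' h3 x w hx hreg hf hg h

end

section
variable {K : Type} [Field K] [Algebra ℂ K]

theorem trdeg_eq (d : Dat K) : Algebra.trdeg ℂ K = 3 := by
  have hm : ∀ i, IsAlgebraic (Algebra.adjoin ℂ (Set.range ![d.a, d.b, d.c]))
      (![d.a, d.b, d.c] i) := fun i => by
    have : ![d.a, d.b, d.c] i = algebraMap (Algebra.adjoin ℂ (Set.range ![d.a, d.b, d.c])) K
      ⟨![d.a, d.b, d.c] i, Algebra.subset_adjoin ⟨i, rfl⟩⟩ := rfl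
    rw [this]
    exact isAlgebraic_algebraMap _
  have halg : ∀ f : K, IsAlgebraic (Algebra.adjoin ℂ (Set.range ![d.a, d.b, d.c])) f :=
    fun f => Pool.Agent.TH551.C8_XM1.alg_of (d := d) (hm 0) (hm 1) (hm 2) f
  have hbas : IsTranscendenceBasis ℂ ![d.a, d.b, d.c] := by
    rw [d.ind.isTranscendenceBasis_iff_isAlgebraic]
    exact ⟨halg⟩
  rw [← hbas.cardinalMk_eq_trdeg]
  simp

end

end Pool.Agent.TH142.FL_PRIME
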