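import Mathlib
import Pool.Agent.TH202.FlRes
import Pool.Agent.TH202.Cen
import Pool.Agent.TH202.PrimeOf
import Pool.Agent.TH142.FL_PRIME

/-!
# Abhyankar inequality for the field `ℂ(a, b, r)`
-/

set_option autoImplicit false
namespace Pool.Agent.TH142.FL_ABHY
open Pool.Agent.H436R3.Fol Pool.Agent.TH202 MvPolynomial

variable {K : Type} [Field K] [Algebra ℂ K]

theorem adjoin_le_Fc (d : Dat K) {ι : Type} (x : ι → K) (hx : ∀ i, x i ∈ Fc d) :
    ∀ z ∈ Algebra.adjoin ℂ (Set.range x), z ∈ Fc d := by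
  intro z hz
  refine Algebra.adjoin_induction (p := fun z _ => z ∈ Fc d) ?_ ?_ ?_ ?_ hz
  · rintro _ ⟨i, rfl⟩
    exact hx i
  · intro c
    exact (Fc d).algebraMap_mem (algebraMap ℂ _ c)
  · intro y z _ _ h1 h2
    exact add_mem h1 h2
  · intro y z _ _ h1 h2
    exact mul_mem h1 h2

theorem c_trans_adjoin (d : Dat K) {ι : Type} (x : ι → K) (hx : ∀ i, x i ∈ Fc d) :
    Transcendental (Algebra.adjoin ℂ (Set.range x)) d.c := by
  rintro ⟨P, hP, hPc⟩
  apply Pool.Agent.TH189.C8_VS.c_trans d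
  let φ : Algebra.adjoin ℂ (Set.range x) →+* Fc d :=
    { toFun := fun z => ⟨z.1, adjoin_le_Fc d x hx z.1 z.2⟩
      map_one' := rfl
      map_mul' := fun _ _ => rfl
      map_zero' := rfl
      map_add' := fun _ _ => rfl }
  have hφ : Function.Injective φ := by
    intro y z h
    have h' : (φ y : K) = (φ z : K) := congrArg Subtype.val h
    exact Subtype.ext h'
  refine ⟨P.map φ, (Polynomial.map_ne_zero_iff hφ).2 hP, ?_⟩
  rw [Polynomial.aeval_def, Polynomial.eval₂_map]
  exact hPc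

theorem alg_of_ind {d : Dat K} {f g : K} (hf : f ∈ Fc d) (hg : g ∈ Fc d)
    (hi : AlgebraicIndependent ℂ ![f, g]) {h : K} (hh : h ∈ Fc d) :
    IsAlgebraic (Algebra.adjoin ℂ (Set.range ![f, g])) h := by
  by_contra htr
  set x3 : Option (Fin 2) → K := fun o => o.elim h ![f, g] with hx3
  have hind3 : AlgebraicIndependent ℂ x3 := (hi.option_iff_transcendental h).2 htr
  have hx3m : ∀ o, x3 o ∈ Fc d := by
    intro o
    rcases o with _ | o
    · exact hh
    · fin_cases o
      · exact hf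
      · exact hg
  set x4 : Option (Option (Fin 2)) → K := fun o => o.elim d.c x3 with hx4
  have hind4 : AlgebraicIndependent ℂ x4 :=
    (hind3.option_iff_transcendental d.c).2 (c_trans_adjoin d x3 hx3m)
  have h1 := hind4.cardinalMk_le_trdeg
  rw [FL_PRIME.trdeg_eq d] at h1
  simp at h1
  norm_num at h1

theorem no_pos {d : Dat K} {w : DVal K} {f g : K} (hf : f ∈ Fc d) (hg : g ∈ Fc d)
    (h : Ind2 w f g) {z : K} (hz : z ∈ Fc d) (hz0 : z ≠ 0) : ¬ w.Pos z := by
  intro hpos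
  have hi : AlgebraicIndependent ℂ ![f, g] := by
    rw [algebraicIndependent_iff]
    intro q hq
    by_contra hq0
    exact (FL_PRIME.ord_of_ind2 h hq0).1 hq
  obtain ⟨P, hP, hPz⟩ := alg_of_ind hf hg hi hz
  have hreg : ∀ q : Algebra.adjoin ℂ (Set.range ![f, g]),
      w.Reg (algebraMap (Algebra.adjoin ℂ (Set.range ![f, g])) K q) := by
    rintro ⟨q, hq⟩
    have hq' := hq
    rw [Algebra.adjoin_range_eq_range_aeval] at hq'
    obtain ⟨q', rfl⟩ := hq'
    exact FL_PRIME.reg_aeval2 h.1 h.2.1 q'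
  obtain ⟨⟨q, hq⟩, hq0, hqp⟩ := res_drop w (algebraMap (Algebra.adjoin ℂ (Set.range ![f, g])) K)
    hreg hz0 hpos hP hPz
  have hq' := hq
  rw [Algebra.adjoin_range_eq_range_aeval] at hq'
  obtain ⟨q', rfl⟩ := hq'
  refine h.2.2 q' ?_ hqp
  rintro rfl
  exact hq0 (Subtype.ext (map_zero _))

/-- A valuation with two elements of `ℂ(a, b, r)` with independent residues is trivial on this
field. -/
theorem abhy {d : Dat K} {w : DVal K} {f g : K} (hf : f ∈ Fc d) (hg : g ∈ Fc d)
    (h : Ind2 w f g) : IsTriv d w := by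
  intro z hz hz0
  have h1 := no_pos hf hg h hz hz0
  have h2 := no_pos hf hg h (inv_mem hz) (inv_ne_zero hz0)
  have h3 : ¬ 0 < w.ord z := fun h => h1 (Or.inr h)
  have h4 : ¬ 0 < w.ord z⁻¹ := fun h => h2 (Or.inr h)
  rw [w.ord_inv hz0] at h4
  omega

end Pool.Agent.TH142.FL_ABHY
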