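import Pool.Agent.TH160.Stm

set_option autoImplicit false

open Polynomial

namespace Pool.Agent.TH142.J327

/-- trace of `a + c s` when `1, s` is a basis and `s ^ 2` is in the base field -/
theorem trace_formula {K L : Type} [Field K] [Field L] [Algebra K L] (s : L)
    (hs : ∀ x : K, algebraMap K L x ≠ s) (e : K) (hs2 : s ^ 2 = algebraMap K L e)
    (hspan : ∀ z : L, ∃ a c : K, z = algebraMap K L a + algebraMap K L c * s) (a c : K) :
    Algebra.trace K L (algebraMap K L a + algebraMap K L c * s) = 2 * a := by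
  have hli : LinearIndependent K ![(1 : L), s] := by
    rw [LinearIndependent.pair_iff]
    intro p q h
    rw [Algebra.smul_def, Algebra.smul_def, mul_one] at h
    have hq : q = 0 := by
      by_contra hq
      apply hs (-p / q)
      have hq' : algebraMap K L q ≠ 0 := by
        rwa [ne_eq, FaithfulSMul.algebraMap_eq_zero_iff]
      rw [map_div₀, map_neg, div_eq_iff hq']
      linear_combination -h
    subst hq
    refine ⟨?_, rfl⟩
    rw [map_zero, zero_mul, add_zero, FaithfulSMul.algebraMap_eq_zero_iff] at h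
    exact h
  have hsp : ⊤ ≤ Submodule.span K (Set.range ![(1 : L), s]) := by
    intro z _
    obtain ⟨p, q, hz⟩ := hspan z
    rw [Matrix.range_cons, Matrix.range_cons, Matrix.range_empty, Set.union_empty,
      Set.singleton_union, Submodule.mem_span_pair]
    exact ⟨p, q, by rw [hz, Algebra.smul_def, Algebra.smul_def, mul_one]⟩
  let b : Module.Basis (Fin 2) K L := Module.Basis.mk hli hsp
  have b0 : b 0 = 1 := by
    simp [b]
  have b1 : b 1 = s := by
    simp [b]
  rw [Algebra.trace_eq_matrix_trace b, Matrix.trace_fin_two, Algebra.leftMulMatrix_eq_repr_mul,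
    Algebra.leftMulMatrix_eq_repr_mul]
  have e0 : (algebraMap K L a + algebraMap K L c * s) * b 0 = a • b 0 + c • b 1 := by
    rw [b0, b1, Algebra.smul_def, Algebra.smul_def]
    ring
  have e1 : (algebraMap K L a + algebraMap K L c * s) * b 1 = (c * e) • b 0 + a • b 1 := by
    rw [b0, b1, Algebra.smul_def, Algebra.smul_def, map_mul]
    linear_combination (algebraMap K L c) * hs2
  rw [e0, e1]
  simp only [map_add, map_smul, Module.Basis.repr_self, Finsupp.add_apply, Finsupp.smul_apply,
    smul_eq_mul]
  simp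
  ring

section
variable {k L : Type} [Field k] [Field L] [Algebra k L]

open IntermediateField.algebraAdjoinAdjoin in
theorem ic (v : L) (hv : Transcendental k v) (z : L) (hz : z ∈ IntermediateField.adjoin k {v})
    (hint : IsIntegral (Algebra.adjoin k {v}) z) : z ∈ Algebra.adjoin k {v} := by
  have hinj : Function.Injective (aeval v : k[X] → L) := transcendental_iff_injective.mp hv
  have e1 : k[X] ≃ₐ[k] (aeval v : k[X] →ₐ[k] L).range := AlgEquiv.ofInjective _ hinj
  have e2 : k[X] ≃+* Algebra.adjoin k {v} :=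
    (e1.trans (Subalgebra.equivOfEq _ _ (Algebra.adjoin_singleton_eq_range_aeval k v).symm)).toRingEquiv
  have hic : IsIntegrallyClosed (Algebra.adjoin k {v}) := IsIntegrallyClosed.of_equiv e2
  have h1 : IsIntegral (Algebra.adjoin k {v})
      (⟨z, hz⟩ : IntermediateField.adjoin k ({v} : Set L)) := by
    rw [← isIntegral_algebraMap_iff (B := L)
      (FaithfulSMul.algebraMap_injective (IntermediateField.adjoin k ({v} : Set L)) L)]
    exact hint
  obtain ⟨y, hy⟩ := IsIntegrallyClosed.isIntegral_iff.mp h1
  have h2 := congrArg Subtype.val hy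
  change (y : L) = z at h2
  rw [← h2]
  exact y.2

theorem mem_adj (v : L) (z : L) : z ∈ Algebra.adjoin k {v} ↔ ∃ p : k[X], z = aeval v p := by
  rw [Algebra.adjoin_singleton_eq_range_aeval]
  constructor
  · rintro ⟨p, hp⟩
    exact ⟨p, hp.symm⟩
  · rintro ⟨p, hp⟩
    exact ⟨p, hp.symm⟩

theorem adj_le (v : L) (p : k[X]) : aeval v p ∈ IntermediateField.adjoin k {v} :=
  (IntermediateField.algebra_adjoin_le_adjoin k {v}) ((mem_adj v _).mpr ⟨p, rfl⟩)

theorem frac (v : L) (z : L) (hz : z ∈ IntermediateField.adjoin k {v}) :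
    ∃ p r : k[X], r ≠ 0 ∧ aeval v r ≠ 0 ∧ z * aeval v r = aeval v p := by
  obtain ⟨p, r, h⟩ := (IntermediateField.mem_adjoin_simple_iff k z).mp hz
  by_cases hr : aeval v r = 0
  · refine ⟨0, 1, one_ne_zero, by simp, ?_⟩
    rw [h, hr]
    simp
  · refine ⟨p, r, ?_, hr, ?_⟩
    · rintro rfl
      simp at hr
    · rw [h]
      field_simp

end

end Pool.Agent.TH142.J327
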