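import Pool.Agent.TH142.J327A

set_option autoImplicit false

open Polynomial

namespace Pool.Agent.TH142.J327

open TH160

open IntermediateField.algebraAdjoinAdjoin in
theorem lemT (hcore : StmCore) (k L : Type) [Field k] [CharZero k] [Field L] [Algebra k L]
    (v s0 : L) (hv : Transcendental k v) (hs0 : s0 ∉ IntermediateField.adjoin k {v})
    (hs02 : s0 ^ 2 ∈ IntermediateField.adjoin k {v})
    (hspan : ∀ z : L, ∃ a ∈ IntermediateField.adjoin k {v}, ∃ c ∈ IntermediateField.adjoin k {v},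
      z = a + c * s0)
    (D1 D2 : Derivation ℤ L L)
    (hD1 : ∀ p : k[X], ∃ p' : k[X], D1 (aeval v p) = aeval v p')
    (hD2 : ∀ p : k[X], ∃ p' : k[X], D2 (aeval v p) = aeval v p') (h : L)
    (hloc : ∀ O : ValuationSubring L, (∀ c : k, algebraMap k L c ∈ O) → v ∈ O →
      ∃ a ∈ O, ∃ b ∈ O, ∃ c ∈ O, h = c * (D1 a * D2 b - D2 a * D1 b))
    (a c : L) (ha : a ∈ IntermediateField.adjoin k {v}) (hc : c ∈ IntermediateField.adjoin k {v})
    (hh : h = a + c * s0) : a ∈ Algebra.adjoin k {v} := by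
  classical
  set M := IntermediateField.adjoin k ({v} : Set L) with hM
  have hs00 : s0 ≠ 0 := fun h => hs0 (h ▸ zero_mem _)
  -- minimal polynomial `f`
  have hex : ∃ n : ℕ, ∃ (f : k[X]) (m : L), m ∈ M ∧ m ≠ 0 ∧ (m * s0) ^ 2 = aeval v f ∧
      f.natDegree = n := by
    obtain ⟨p, r, hr, hrv, hpr⟩ := frac v _ hs02
    refine ⟨_, p * r, aeval v r, adj_le v r, hrv, ?_, rfl⟩
    rw [map_mul, ← hpr]
    ring
  obtain ⟨f, m, hmM, hm0, hsf, hfn⟩ := Nat.find_spec hex
  have hmin := fun n hn => Nat.find_min (m := n) hex hn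
  rw [← hfn] at hmin
  have hf0 : f ≠ 0 := by
    rintro rfl
    rw [map_zero] at hsf
    exact (pow_ne_zero 2 (mul_ne_zero hm0 hs00)) hsf
  have hsqf : Squarefree f := by
    rintro g ⟨f1, hf1⟩
    have hg0 : g ≠ 0 := by
      rintro rfl
      apply hf0
      rw [hf1]
      ring
    have hf10 : f1 ≠ 0 := by
      rintro rfl
      apply hf0
      rw [hf1]
      ring
    have hgv : aeval v g ≠ 0 := fun h => hv ⟨g, hg0, h⟩
    by_contra hu
    have hgd : g.natDegree ≠ 0 := by
      intro h0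
      apply hu
      rw [isUnit_iff_degree_eq_zero, degree_eq_natDegree hg0, h0]
      rfl
    have hdeg : f.natDegree = g.natDegree + g.natDegree + f1.natDegree := by
      rw [hf1, natDegree_mul (mul_ne_zero hg0 hg0) hf10, natDegree_mul hg0 hg0]
    refine hmin f1.natDegree (by omega) ⟨f1, m / aeval v g, div_mem hmM (adj_le v g),
      div_ne_zero hm0 hgv, ?_, rfl⟩
    have e1 : (m / aeval v g * s0) ^ 2 = (m * s0) ^ 2 / (aeval v g) ^ 2 := by
      field_simp
    rw [e1, hsf, hf1, div_eq_iff (pow_ne_zero 2 hgv), map_mul, map_mul]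
    ring
  set s := m * s0 with hs
  have hsM : s ∉ M := by
    intro h1
    apply hs0
    have : s0 = s / m := by rw [hs]; field_simp
    rw [this]
    exact div_mem h1 hmM
  -- spanning
  have hcomb : ∀ z : L, ∃ a ∈ M, ∃ c ∈ M, z = a + c * s := by
    intro z
    obtain ⟨a, ha, c, hc, hz⟩ := hspan z
    refine ⟨a, ha, c / m, div_mem hc hmM, ?_⟩
    rw [hz, hs]
    field_simp
  have hcore' := hcore k L v s f hv hsf hsqf (by
    intro z
    obtain ⟨a, ha, c, hc, hz⟩ := hcomb z
    obtain ⟨p1, r1, hr1, hr1v, e1⟩ := frac v a ha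
    obtain ⟨p2, r2, hr2, hr2v, e2⟩ := frac v c hc
    refine ⟨p1 * r2, p2 * r1, r1 * r2, mul_ne_zero hr1 hr2, ?_⟩
    rw [hz, map_mul, map_mul, map_mul, ← e1, ← e2]
    ring) D1 D2 hD1 hD2 h hloc
  -- the coefficients
  set c' := c / m with hc'
  have hc'M : c' ∈ M := div_mem hc hmM
  have hh' : h = a + c' * s := by
    rw [hh, hc', hs]
    field_simp
  have hfM : aeval v f ∈ M := adj_le v f
  have hsh : s * h = c' * aeval v f + a * s := by
    rw [hh', ← hsf]
    ring
  have hspM : ∀ z : L, ∃ a c : M, z = algebraMap M L a + algebraMap M L c * s := by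
    intro z
    obtain ⟨a, ha, c, hc, hz⟩ := hcomb z
    exact ⟨⟨a, ha⟩, ⟨c, hc⟩, hz⟩
  have hfd : FiniteDimensional M L := by
    have hsp : (⊤ : Submodule M L) ≤ Submodule.span M (Set.range ![(1 : L), s]) := by
      intro z _
      obtain ⟨p, q, hz⟩ := hspM z
      rw [Matrix.range_cons, Matrix.range_cons, Matrix.range_empty, Set.union_empty,
        Set.singleton_union, Submodule.mem_span_pair]
      exact ⟨p, q, by rw [hz, Algebra.smul_def, Algebra.smul_def, mul_one]⟩
    refine Module.Finite.of_fg_top ?_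
    rw [← top_le_iff.mp hsp]
    exact Submodule.fg_span (Set.finite_range _)
  have htr : Algebra.trace M L (s * h) = 2 * (⟨c' * aeval v f, mul_mem hc'M hfM⟩ : M) := by
    rw [hsh]
    exact trace_formula (K := M) s (fun x hx => hsM (hx ▸ x.2)) ⟨aeval v f, hfM⟩ hsf hspM
      ⟨c' * aeval v f, mul_mem hc'M hfM⟩ ⟨a, ha⟩
  have hint1 : IsIntegral (Algebra.adjoin k {v}) (Algebra.trace M L (s * h)) :=
    Algebra.isIntegral_trace hcore'
  have h2 : IsIntegral (Algebra.adjoin k {v}) ((2 : L) * (c' * aeval v f)) := by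
    rw [htr] at hint1
    have := hint1.algebraMap (B := L)
    exact this
  have h2L : (2 : L) ≠ 0 := by
    have : CharZero L := charZero_of_injective_algebraMap (algebraMap k L).injective
    norm_num
  have h3 : (2 : L) * (c' * aeval v f) ∈ Algebra.adjoin k {v} :=
    ic v hv _ (mul_mem (ofNat_mem _ 2) (mul_mem hc'M hfM)) h2
  have h4 : c' * aeval v f ∈ Algebra.adjoin k {v} := by
    have : c' * aeval v f = algebraMap k L (1 / 2) * (2 * (c' * aeval v f)) := by
      rw [map_div₀, map_one, map_ofNat]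
      field_simp
    rw [this]
    exact mul_mem (Subalgebra.algebraMap_mem _ _) h3
  have h5 : IsIntegral (Algebra.adjoin k {v}) (a * s) := by
    have : a * s = s * h - c' * aeval v f := by rw [hsh]; ring
    rw [this]
    exact hcore'.sub (isIntegral_algebraMap (R := Algebra.adjoin k {v})
      (x := ⟨c' * aeval v f, h4⟩))
  have h6 : IsIntegral (Algebra.adjoin k {v}) (a * aeval v f) := by
    refine IsIntegral.of_pow (n := 2) (by norm_num) ?_
    have : (a * aeval v f) ^ 2 = (a * s) ^ 2 * aeval v f := by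
      rw [mul_pow a s, hsf]
      ring
    rw [this]
    exact (h5.pow 2).mul (isIntegral_algebraMap (R := Algebra.adjoin k {v})
      (x := ⟨aeval v f, (mem_adj v _).mpr ⟨f, rfl⟩⟩))
  obtain ⟨Q, hQ⟩ := (mem_adj v _).mp (ic v hv _ (mul_mem ha hfM) h6)
  have h7 : IsIntegral (Algebra.adjoin k {v}) (a ^ 2 * aeval v f) := by
    have : a ^ 2 * aeval v f = (a * s) ^ 2 := by rw [mul_pow, hsf]
    rw [this]
    exact h5.pow 2
  obtain ⟨P, hP⟩ := (mem_adj v _).mp (ic v hv _ (mul_mem (pow_mem ha 2) hfM) h7)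
  have hinj : Function.Injective (aeval v : k[X] → L) := transcendental_iff_injective.mp hv
  have h8 : Q ^ 2 = P * f := by
    apply hinj
    rw [map_pow, map_mul, ← hQ, ← hP]
    ring
  have h9 : f ∣ Q := hsqf.isRadical 2 Q ⟨P, by rw [h8]; ring⟩
  obtain ⟨Q1, hQ1⟩ := h9
  rw [mem_adj]
  refine ⟨Q1, ?_⟩
  have hfv : aeval v f ≠ 0 := fun h => hv ⟨f, hf0, h⟩
  rw [hQ1, map_mul] at hQ
  have : (a - aeval v Q1) * aeval v f = 0 := by linear_combination hQ
  rcases mul_eq_zero.mp this with h10 | h10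
  · exact sub_eq_zero.mp h10
  · exact absurd h10 hfv

theorem lemT1 (hcore : StmCore) (k L : Type) [Field k] [CharZero k] [Field L] [Algebra k L]
    (v : L) (hv : Transcendental k v)
    (hspan : ∀ z : L, z ∈ IntermediateField.adjoin k {v})
    (D1 D2 : Derivation ℤ L L)
    (hD1 : ∀ p : k[X], ∃ p' : k[X], D1 (aeval v p) = aeval v p')
    (hD2 : ∀ p : k[X], ∃ p' : k[X], D2 (aeval v p) = aeval v p') (h : L)
    (hloc : ∀ O : ValuationSubring L, (∀ c : k, algebraMap k L c ∈ O) → v ∈ O →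
      ∃ a ∈ O, ∃ b ∈ O, ∃ c ∈ O, h = c * (D1 a * D2 b - D2 a * D1 b)) :
    h ∈ Algebra.adjoin k {v} := by
  have h1 := hcore k L v 1 1 hv (by simp) squarefree_one (by
    intro z
    obtain ⟨p, r, hr, _, e⟩ := frac v z (hspan z)
    exact ⟨p, 0, r, hr, by rw [e]; simp⟩) D1 D2 hD1 hD2 h hloc
  rw [one_mul] at h1
  exact ic v hv h (hspan h) h1

end Pool.Agent.TH142.J327
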