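import Pool.Agent.TH64.Proj

set_option autoImplicit false

namespace Pool.Agent.TH142.J475

open Pool.Agent.TH64

variable {G : Type*} [Group G]

/-- points between two points of `F` -/
def hull (H : Hyp G) (F : Set G) : Set G :=
  {p | ∃ a ∈ F, ∃ b ∈ F, H.d a p + H.d p b = H.d a b}

theorem sub_hull (H : Hyp G) (F : Set G) : F ⊆ hull H F := by
  intro a ha
  exact ⟨a, ha, a, ha, by rw [H.d_self]⟩

theorem seg_hull (H : Hyp G) (F : Set G) {a b p q : G} (ha : a ∈ F) (hb : b ∈ F)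
    (hp : H.d a p + H.d p b = H.d a b) (hq : H.d a q + H.d q p = H.d a p) : q ∈ hull H F := by
  refine ⟨a, ha, b, hb, ?_⟩
  have h1 := H.d_tri q p b
  have h2 := H.d_tri a q b
  omega

theorem hull_QC (H : Hyp G) (F : Set G) : H.QC (hull H F) (4 * H.D) := by
  rintro p1 ⟨a1, ha1, b1, hb1, h1⟩ p2 ⟨a2, ha2, b2, hb2, h2⟩ p hp
  rcases H.slim a2 hp with ⟨q, hq, hpq⟩ | ⟨q, hq, hpq⟩
  · rcases H.slim a1 hq with ⟨r, hr, hqr⟩ | ⟨r, hr, hqr⟩
    · refine ⟨r, seg_hull H F ha1 hb1 h1 ?_, ?_⟩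
      · rw [H.d_comm a1 r, H.d_comm r p1, H.d_comm a1 p1]
        omega
      · have := H.d_tri p q r
        omega
    · refine ⟨r, ⟨a2, ha2, a1, ha1, hr⟩, ?_⟩
      have := H.d_tri p q r
      omega
  · refine ⟨q, seg_hull H F ha2 hb2 h2 ?_, by omega⟩
    rw [H.d_comm a2 q, H.d_comm q p2, H.d_comm a2 p2]
    omega

theorem hull_mul (H : Hyp G) (F : Set G) (g : G) (hF : ∀ p ∈ F, g * p ∈ F) (p : G)
    (hp : p ∈ hull H F) : g * p ∈ hull H F := by
  obtain ⟨a, ha, b, hb, h⟩ := hp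
  exact ⟨g * a, hF a ha, g * b, hF b hb, by rw [H.d_mul, H.d_mul, H.d_mul]; exact h⟩

theorem near_mul (H : Hyp G) (A : Set G) (g z p : G) (hA : ∀ p ∈ A, g * p ∈ A)
    (hA' : ∀ p ∈ A, g⁻¹ * p ∈ A) (hp : H.Near A z p) : H.Near A (g * z) (g * p) := by
  refine ⟨hA p hp.1, fun a ha => ?_⟩
  have h1 := hp.2 _ (hA' a ha)
  rw [H.d_mul]
  have h2 : H.d (g * z) a = H.d z (g⁻¹ * a) := by
    rw [← H.d_mul g z (g⁻¹ * a), mul_inv_cancel_left]
  omega

theorem helly (H : Hyp G) (x : G) (hx : ∀ k : ℤ, x ^ k = 1 → k = 0) (C : ℕ) :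
    ∃ m : ℕ, 1 ≤ m ∧ ∀ p : G, C ≤ H.len (p⁻¹ * x ^ m * p) := by
  classical
  by_contra hcon
  push Not at hcon
  have hlen : ∀ (i : ℕ) (p : G), H.len (p⁻¹ * x ^ i * p) = H.d p (x ^ i * p) := by
    intro i p
    unfold Hyp.d
    congr 1
    group
  let F : ℕ → Set G := fun m => {p | H.d p (x ^ m * p) ≤ C}
  have hFne : ∀ m, 1 ≤ m → (F m).Nonempty := by
    intro m hm
    obtain ⟨p, hp⟩ := hcon m hm
    rw [hlen] at hp
    exact ⟨p, hp.le⟩
  have hFmul : ∀ (m : ℕ) (i : ℤ) (p : G), p ∈ F m → x ^ i * p ∈ F m := by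
    intro m i p hp
    change H.d (x ^ i * p) (x ^ m * (x ^ i * p)) ≤ C
    have : x ^ m * (x ^ i * p) = x ^ i * (x ^ m * p) := by
      rw [← mul_assoc, ← mul_assoc]
      congr 1
      rw [← zpow_natCast, ← zpow_add, ← zpow_add, add_comm]
    rw [this, H.d_mul]
    exact hp
  have hhull : ∀ (m : ℕ) (q : G), q ∈ hull H (F m) → H.d q (x ^ m * q) ≤ C + H.D := by
    rintro m q ⟨a, ha, b, hb, h⟩
    have h1 := H.fp q (x ^ m * q) a b
    have h2 := H.d_tri (x ^ m * q) (x ^ m * b) b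
    have h3 := H.d_tri (x ^ m * q) (x ^ m * a) a
    rw [H.d_mul] at h2 h3
    rw [H.d_comm (x ^ m * b) b] at h2
    rw [H.d_comm (x ^ m * a) a] at h3
    have h4 : H.d b (x ^ m * b) ≤ C := hb
    have h5 : H.d a (x ^ m * a) ≤ C := ha
    rw [H.d_comm a q] at h
    omega
  set R := C + 64 * H.D + 6 with hR
  set K := (H.fin R).toFinset.card + 1 with hK
  -- nearest points
  have hp : ∀ i, 1 ≤ i → ∃ p, H.Near (hull H (F i)) 1 p := by
    intro i hi
    obtain ⟨a, ha⟩ := hFne i hi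
    exact H.exists_near ⟨a, sub_hull H _ ha⟩ 1
  choose! p hp using hp
  obtain ⟨J, hJ1, hJ2⟩ := Finset.exists_max_image (Finset.Icc 1 K) (fun i => H.d 1 (p i))
    ⟨1, by rw [Finset.mem_Icc]; omega⟩
  rw [Finset.mem_Icc] at hJ1
  have hpJ := hp J hJ1.1
  have hdisp : ∀ i, 1 ≤ i → i ≤ K → H.d (p J) (x ^ i * p J) ≤ R := by
    intro i hi hiK
    have hpi := hp i hi
    have hmax := hJ2 i (by rw [Finset.mem_Icc]; exact ⟨hi, hiK⟩)
    obtain ⟨q, hq⟩ := H.exists_near (A := hull H (F J)) ⟨_, hpJ.1⟩ (p i)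
    have hxq : H.Near (hull H (F J)) (x ^ i * p i) (x ^ i * q) := by
      apply near_mul H _ _ _ _ _ _ hq
      · intro r hr
        refine hull_mul H _ _ ?_ r hr
        intro s hs
        have := hFmul J i s hs
        rwa [zpow_natCast] at this
      · intro r hr
        refine hull_mul H _ _ ?_ r hr
        intro s hs
        have := hFmul J (-i) s hs
        rwa [zpow_neg, zpow_natCast] at this
    have h1 : H.d q (x ^ i * q) ≤ C + 22 * H.D + 2 := by
      by_contra hcon2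
      push Not at hcon2
      have h2 := H.near_near (hull_QC H (F J)) hq hxq (by omega)
      have h3 := hhull i (p i) hpi.1
      omega
    have h4 : H.d (p J) q ≤ 21 * H.D + 2 := by
      by_contra hcon2
      push Not at hcon2
      have h5 := H.near_near (hull_QC H (F J)) hpJ hq (by omega)
      omega
    have h6 := H.d_tri (p J) q (x ^ i * p J)
    have h7 := H.d_tri q (x ^ i * q) (x ^ i * p J)
    rw [H.d_mul, H.d_comm q (p J)] at h7
    omega
  -- pigeonhole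
  have hmaps : ∀ i ∈ Finset.Icc 1 K, (p J)⁻¹ * x ^ i * p J ∈ (H.fin R).toFinset := by
    intro i hi
    rw [Finset.mem_Icc] at hi
    rw [Set.Finite.mem_toFinset]
    change H.len _ ≤ R
    rw [hlen]
    exact hdisp i hi.1 hi.2
  have hcard : (H.fin R).toFinset.card < (Finset.Icc 1 K).card := by
    rw [Nat.card_Icc]
    omega
  obtain ⟨i, hi, j, hj, hij, he⟩ := Finset.exists_ne_map_eq_of_card_lt_of_maps_to hcard hmaps
  apply hij
  have h1 : x ^ i = x ^ j := by
    have := mul_right_cancel he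
    exact mul_left_cancel this
  have h2 : x ^ ((i : ℤ) - j) = 1 := by
    rw [zpow_sub, zpow_natCast, zpow_natCast, h1, mul_inv_cancel]
  have := hx _ h2
  omega

end Pool.Agent.TH142.J475
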