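import Pool.Agent.TH64.Axis

set_option autoImplicit false

namespace Pool.Agent.TH142.J487

open Pool.Agent.TH64

variable {G : Type*} [Group G]

/-- the elementary closure -/
def EE (γ : G) : Subgroup G where
  carrier := {g | ∃ s t : ℤ, s ≠ 0 ∧ t ≠ 0 ∧ g * γ ^ t * g⁻¹ = γ ^ s}
  one_mem' := ⟨1, 1, one_ne_zero, one_ne_zero, by simp⟩
  mul_mem' := by
    rintro g h ⟨s, t, hs, ht, hg⟩ ⟨s', t', hs', ht', hh⟩
    refine ⟨s * s', t' * t, mul_ne_zero hs hs', mul_ne_zero ht' ht, ?_⟩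
    have e1 : g * h * γ ^ (t' * t) * (g * h)⁻¹ = g * (h * γ ^ t' * h⁻¹) ^ t * g⁻¹ := by
      rw [conj_zpow, zpow_mul]
      group
    rw [e1, hh, ← zpow_mul, mul_comm s' t, zpow_mul]
    have e2 : g * (γ ^ t) ^ s' * g⁻¹ = (g * γ ^ t * g⁻¹) ^ s' := by
      rw [conj_zpow]
    rw [e2, hg, ← zpow_mul]
  inv_mem' := by
    rintro g ⟨s, t, hs, ht, hg⟩
    refine ⟨t, s, ht, hs, ?_⟩
    rw [← hg]
    group

variable {H : Hyp G} {γ : G} (P : PAx H γ)

include P in
theorem zpow_ne (k : ℤ) (hk : k ≠ 0) : γ ^ k ≠ 1 := by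
  intro h
  apply hk
  exact P.zpow_inj (by rw [h, zpow_zero])

include P in
theorem aux_lt (g : G) (a b : ℕ) (hab : b < a)
    (h : ∀ n : ℕ, H.len (γ ^ (a * n)) ≤ H.len (γ ^ (b * n)) + 2 * H.len g) : False := by
  have h1 := fun n => P.sup (b * n) ((a - b) * n)
  have e : ∀ n, b * n + (a - b) * n = a * n := by
    intro n
    rw [← Nat.add_mul]
    congr 1
    omega
  simp only [e] at h1
  set n := P.c * (P.c + 2 * H.len g) + P.c + 1 with hn
  have h2 : H.len (γ ^ ((a - b) * n)) ≤ P.c + 2 * H.len g := by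
    have := h n
    have := h1 n
    omega
  have h3 := P.lin ((a - b) * n)
  have h4 : P.c * H.len (γ ^ ((a - b) * n)) ≤ P.c * (P.c + 2 * H.len g) :=
    Nat.mul_le_mul_left _ h2
  have h5 : n ≤ (a - b) * n := Nat.le_mul_of_pos_left n (by omega)
  omega

include P in
theorem natAbs_eq (g : G) (s t : ℤ) (h : g * γ ^ t * g⁻¹ = γ ^ s) : s.natAbs = t.natAbs := by
  have hn : ∀ n : ℕ, g * γ ^ (t * n) * g⁻¹ = γ ^ (s * n) := by
    intro n
    rw [zpow_mul, ← conj_zpow, h, ← zpow_mul]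
  have hlen : ∀ n : ℕ, H.len (γ ^ (s.natAbs * n)) = H.len (γ ^ (s * n)) := by
    intro n
    rw [PAx.len_zpow (H := H) (s * n), Int.natAbs_mul]
    simp
  have hlen' : ∀ n : ℕ, H.len (γ ^ (t.natAbs * n)) = H.len (γ ^ (t * n)) := by
    intro n
    rw [PAx.len_zpow (H := H) (t * n), Int.natAbs_mul]
    simp
  have k1 : ∀ n : ℕ, H.len (γ ^ (s.natAbs * n)) ≤ H.len (γ ^ (t.natAbs * n)) + 2 * H.len g := by
    intro n
    rw [hlen, hlen', ← hn]
    have a1 := H.len_mul (g * γ ^ (t * n)) g⁻¹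
    have a2 := H.len_mul g (γ ^ (t * n))
    rw [H.len_inv] at a1
    omega
  have k2 : ∀ n : ℕ, H.len (γ ^ (t.natAbs * n)) ≤ H.len (γ ^ (s.natAbs * n)) + 2 * H.len g := by
    intro n
    have e : γ ^ (t * n) = g⁻¹ * γ ^ (s * n) * g := by
      rw [← hn]
      group
    rw [hlen, hlen', e]
    have a1 := H.len_mul (g⁻¹ * γ ^ (s * n)) g
    have a2 := H.len_mul g⁻¹ (γ ^ (s * n))
    rw [H.len_inv] at a2
    omega
  by_contra hne
  rcases lt_or_gt_of_ne hne with h1 | h1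
  · exact aux_lt P g _ _ h1 k2
  · exact aux_lt P g _ _ h1 k1

include P in
/-- elements of `EE` are near the axis -/
theorem near_axis (g : G) (hg : g ∈ EE γ) : H.len (γ ^ (-P.κ g) * g) ≤ P.c := by
  obtain ⟨s, t, hs, ht, h⟩ := hg
  have habs := natAbs_eq P g s t h
  set n : ℕ := P.c + 1 with hn
  have e1 : γ ^ (s * n) * g = g * γ ^ (t * n) := by
    have : g * γ ^ (t * n) * g⁻¹ = γ ^ (s * n) := by
      rw [zpow_mul, ← conj_zpow, h, ← zpow_mul]
    rw [← this]
    group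
  have hk : P.κ (γ ^ (s * n) * g) = P.κ g + s * n := P.shift _ _
  have hsn : (P.c : ℤ) < |P.κ g - P.κ (γ ^ (s * n) * g)| := by
    rw [hk]
    have : P.κ g - (P.κ g + s * n) = -(s * n) := by ring
    rw [this, abs_neg, abs_mul, Nat.abs_cast]
    have h1 : (1 : ℤ) ≤ |s| := Int.one_le_abs hs
    have h2 : (n : ℤ) ≤ |s| * n := le_mul_of_one_le_left (by positivity) h1
    have h3 : (n : ℤ) = P.c + 1 := by rw [hn]; push_cast; ring
    omega
  have hproj := P.proj _ _ hsn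
  have e2 : H.len (γ ^ (P.κ g - P.κ (γ ^ (s * n) * g))) = H.len (γ ^ (s * n)) := by
    rw [hk]
    have : P.κ g - (P.κ g + s * n) = -(s * n) := by ring
    rw [this, zpow_neg, H.len_inv]
  have e3 : H.d g (γ ^ (s * n) * g) = H.len (γ ^ (t * n)) := by
    rw [e1]
    unfold Hyp.d
    congr 1
    group
  have e4 : H.len (γ ^ (s * n)) = H.len (γ ^ (t * n)) := by
    rw [PAx.len_zpow (H := H) (s * n), PAx.len_zpow (H := H) (t * n), Int.natAbs_mul,
      Int.natAbs_mul, habs]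
  have e5 : H.d g (γ ^ P.κ g) = H.len (γ ^ (-P.κ g) * g) := by
    rw [H.d_comm]
    unfold Hyp.d
    rw [zpow_neg]
  rw [e2, e3, e4, e5] at hproj
  omega

theorem gamma_mem (k : ℤ) : γ ^ k ∈ EE γ :=
  Subgroup.zpow_mem _ (⟨1, 1, one_ne_zero, one_ne_zero, by group⟩ : γ ∈ EE γ) k

include P in
/-- an element of `EE` of infinite order has a power in `⟨γ⟩` -/
theorem pow_axis (g : G) (hg : g ∈ EE γ) : ∃ a : ℤ, a ≠ 0 ∧ ∃ b : ℤ, g ^ a = γ ^ b := by
  have hfin := H.fin P.c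
  have hmaps : ∀ n : ℕ, γ ^ (-P.κ (g ^ n)) * g ^ n ∈ {g | H.len g ≤ P.c} := fun n =>
    near_axis P _ (Subgroup.pow_mem _ hg n)
  obtain ⟨n, _, m, _, hnm, he⟩ := Set.infinite_univ.exists_ne_map_eq_of_mapsTo
    (f := fun n : ℕ => γ ^ (-P.κ (g ^ n)) * g ^ n) (fun n _ => hmaps n) hfin
  refine ⟨(n : ℤ) - m, by omega, P.κ (g ^ n) - P.κ (g ^ m), ?_⟩
  generalize P.κ (g ^ n) = kn at he ⊢
  generalize P.κ (g ^ m) = km at he ⊢
  have h1 : g ^ n = γ ^ kn * (γ ^ (-km) * g ^ m) := by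
    rw [← he, zpow_neg, mul_inv_cancel_left]
  rw [zpow_sub, zpow_natCast, zpow_natCast, h1, ← mul_assoc, mul_inv_cancel_right, ← zpow_add,
    sub_eq_add_neg]

include P in
theorem no_inv (hodd : ∀ a : G, IsOfFinOrder a → Odd (orderOf a)) (g : G) (s : ℤ) (hs : s ≠ 0) :
    g * γ ^ s * g⁻¹ ≠ γ ^ (-s) := by
  intro h
  have hg : g ∈ EE γ := ⟨-s, s, neg_ne_zero.mpr hs, hs, h⟩
  obtain ⟨a, ha, b, hab⟩ := pow_axis P g hg
  have hb : b = 0 := by
    by_contra hb
    have h1 : g * γ ^ b * g⁻¹ = γ ^ b := by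
      rw [← hab]
      group
    have h2 : γ ^ (b * s) = γ ^ (-(b * s)) := by
      have e1 : g * γ ^ (b * s) * g⁻¹ = γ ^ (b * s) := by
        rw [zpow_mul, ← conj_zpow, h1]
      have e2 : g * γ ^ (b * s) * g⁻¹ = γ ^ (-(b * s)) := by
        rw [mul_comm b s, zpow_mul, ← conj_zpow, h, ← zpow_mul]
        congr 1
        ring
      rw [← e1, e2]
    have h3 := P.zpow_inj h2
    have h4 : b * s ≠ 0 := mul_ne_zero hb hs
    omega
  rw [hb, zpow_zero] at hab
  have hfin : IsOfFinOrder g := by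
    rw [isOfFinOrder_iff_zpow_eq_one]
    exact ⟨a, ha, hab⟩
  have ho := hodd g hfin
  obtain ⟨r, hr⟩ := ho
  have key : ∀ n : ℕ, g ^ n * γ ^ s * (g ^ n)⁻¹ = γ ^ ((-1) ^ n * s) := by
    intro n
    induction n with
    | zero => simp
    | succ n ih =>
      have e : g ^ (n + 1) * γ ^ s * (g ^ (n + 1))⁻¹ = g * (g ^ n * γ ^ s * (g ^ n)⁻¹) * g⁻¹ := by
        rw [pow_succ']
        group
      rw [e, ih, mul_comm ((-1 : ℤ) ^ n) s, zpow_mul, ← conj_zpow, h, ← zpow_mul]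
      congr 1
      ring
  have h5 := key (orderOf g)
  rw [pow_orderOf_eq_one, hr] at h5
  have h6 : ((-1 : ℤ) ^ (2 * r + 1)) = -1 := by
    rw [pow_succ, pow_mul]
    simp
  rw [h6] at h5
  have h7 : γ ^ s = γ ^ (-1 * s) := by
    rw [← h5]
    group
  have := P.zpow_inj h7
  omega

include P in
theorem comm_some (hodd : ∀ a : G, IsOfFinOrder a → Odd (orderOf a)) (g : G) (hg : g ∈ EE γ) :
    ∃ m : ℕ, 1 ≤ m ∧ g * γ ^ m = γ ^ m * g := by
  obtain ⟨s, t, hs, ht, h⟩ := hg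
  have habs := natAbs_eq P g s t h
  have hst : s = t := by
    rcases Int.natAbs_eq_natAbs_iff.mp habs with h1 | h1
    · exact h1
    · exfalso
      subst h1
      exact no_inv P hodd g t ht h
  subst hst
  refine ⟨s.natAbs, Int.natAbs_pos.mpr hs, ?_⟩
  have h1 : g * γ ^ s = γ ^ s * g := by
    have : γ ^ s * g = g * γ ^ s * g⁻¹ * g := by rw [h]
    rw [this]
    group
  have hc : Commute g (γ ^ s) := h1
  rcases Int.natAbs_eq s with h2 | h2
  · rw [h2, zpow_natCast] at hc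
    exact hc
  · rw [h2, zpow_neg, zpow_natCast] at hc
    exact (Commute.inv_right_iff.mp hc)

theorem elem (H : Hyp G) (hodd : ∀ a : G, IsOfFinOrder a → Odd (orderOf a))
    (hcom : ∀ a g : G, a ≠ 1 → IsOfFinOrder a → a * g = g * a → IsOfFinOrder g)
    (γ : G) (P : PAx H γ) :
    ∃ x : G, (∃ j : ℤ, x ^ j = γ) ∧
      ∀ g : G, (∃ s : ℕ, 1 ≤ s ∧ ∃ t : ℤ, t ≠ 0 ∧ g * γ ^ t * g⁻¹ = γ ^ (s : ℤ)) →
        g ∈ Subgroup.zpowers x := by
  classical
  have hγ : ¬ IsOfFinOrder γ := by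
    rw [isOfFinOrder_iff_pow_eq_one]
    rintro ⟨n, hn, h⟩
    exact zpow_ne P n (by omega) (by rw [zpow_natCast, h])
  -- torsion free
  have htf : ∀ g ∈ EE γ, IsOfFinOrder g → g = 1 := by
    intro g hg hfin
    by_contra hne
    obtain ⟨m, hm, hc⟩ := comm_some P hodd g hg
    have h1 := hcom g (γ ^ m) hne hfin hc
    apply hγ
    rw [isOfFinOrder_iff_pow_eq_one] at h1 ⊢
    obtain ⟨n, hn, h2⟩ := h1
    exact ⟨m * n, Nat.mul_pos (by omega) hn, by rw [pow_mul, h2]⟩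
  -- uniform exponent
  choose! mm hmm1 hmm2 using comm_some P hodd
  set B := (H.fin P.c).toFinset.filter (fun b => b ∈ EE γ) with hBdef
  set m := ∏ b ∈ B, mm b with hm
  have hm1 : 1 ≤ m := by
    apply Nat.one_le_iff_ne_zero.mpr
    rw [hm, Finset.prod_ne_zero_iff]
    intro b hb
    have := hmm1 b (Finset.mem_filter.mp hb).2
    omega
  have hBm : ∀ b ∈ B, b * γ ^ m = γ ^ m * b := by
    intro b hb
    obtain ⟨k, hk⟩ := Finset.dvd_prod_of_mem mm hb
    rw [hm, hk, pow_mul]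
    have : Commute b (γ ^ mm b) := hmm2 b (Finset.mem_filter.mp hb).2
    exact this.pow_right k
  have hdec : ∀ g ∈ EE γ, γ ^ (-P.κ g) * g ∈ B := by
    intro g hg
    rw [hBdef, Finset.mem_filter, Set.Finite.mem_toFinset]
    exact ⟨near_axis P g hg, (EE γ).mul_mem (gamma_mem _) hg⟩
  have hcen : ∀ g ∈ EE γ, Commute g (γ ^ m) := by
    intro g hg
    have h1 : Commute (γ ^ (-P.κ g) * g) (γ ^ m) := hBm _ (hdec g hg)
    have h2 : g = γ ^ (P.κ g) * (γ ^ (-P.κ g) * g) := by rw [zpow_neg, mul_inv_cancel_left]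
    rw [h2]
    refine Commute.mul_left ?_ h1
    rw [← zpow_natCast]
    exact (Commute.refl γ).zpow_zpow _ _
  -- the subgroup as a group
  set γE : EE γ := ⟨γ, by simpa using gamma_mem (γ := γ) 1⟩ with hγE
  have hγm : γE ^ m ∈ Subgroup.center (EE γ) := by
    rw [Subgroup.mem_center_iff]
    intro g
    apply Subtype.ext
    exact hcen g g.2
  have hfi : (Subgroup.zpowers (γE ^ m)).FiniteIndex := by
    rw [Subgroup.finiteIndex_iff_finite_quotient]
    have hfin : Finite {b : G // b ∈ B} := inferInstance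
    let f : (Fin m × {b : G // b ∈ B}) → EE γ ⧸ Subgroup.zpowers (γE ^ m) := fun rb =>
      QuotientGroup.mk (γE ^ (rb.1 : ℕ) * ⟨rb.2, (Finset.mem_filter.mp rb.2.2).2⟩)
    refine Finite.of_surjective f ?_
    intro q
    obtain ⟨g, rfl⟩ := QuotientGroup.mk_surjective q
    have hmpos : (0 : ℤ) < m := by omega
    have hr0 := Int.emod_nonneg (P.κ g) hmpos.ne'
    have hr1 := Int.emod_lt_of_pos (P.κ g) hmpos
    refine ⟨(⟨(P.κ g % m).toNat, by omega⟩, ⟨_, hdec g g.2⟩), ?_⟩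
    simp only [f]
    rw [QuotientGroup.eq, Subgroup.mem_zpowers_iff]
    refine ⟨P.κ g / m, ?_⟩
    apply Subtype.ext
    have hr2 : (((P.κ g % m).toNat : ℕ) : ℤ) = P.κ g % m := Int.toNat_of_nonneg hr0
    have hdm : P.κ g = P.κ g % m + m * (P.κ g / m) := (Int.emod_add_mul_ediv _ _).symm
    have e1 : ((γE ^ m) ^ (P.κ g / m) : EE γ).1 = γ ^ (m * (P.κ g / m)) := by
      simp [hγE, zpow_mul]
    have e2 : (((γE ^ (P.κ g % m).toNat * ⟨γ ^ (-P.κ g) * g, (Finset.mem_filter.mp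
        (hdec g g.2)).2⟩)⁻¹ * g : EE γ) : G) =
        (γ ^ (P.κ g % m) * (γ ^ (-P.κ g) * g))⁻¹ * g := by
      have e4 : γ ^ (P.κ g % m).toNat = γ ^ (P.κ g % m) := by
        conv_rhs => rw [← hr2, zpow_natCast]
      rw [← e4]
      rfl
    rw [e1, e2]
    have hc1 : Commute (g : G) (γ ^ (m * (P.κ g / m))) := by
      rw [zpow_mul]
      have := hcen g g.2
      rw [← zpow_natCast] at this
      exact this.zpow_right _
    have e3 : (γ ^ (P.κ g % m) * (γ ^ (-P.κ g) * (g : G)))⁻¹ * g =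
        (g : G)⁻¹ * γ ^ (m * (P.κ g / m)) * g := by
      have : γ ^ (m * (P.κ g / m)) = (γ ^ (P.κ g % m) * γ ^ (-P.κ g))⁻¹ := by
        rw [← zpow_add, ← zpow_neg]
        congr 1
        omega
      rw [this]
      group
    rw [e3, mul_assoc, ← hc1.eq, inv_mul_cancel_left]
  have hfc : (Subgroup.center (EE γ)).FiniteIndex := by
    apply Subgroup.finiteIndex_of_le (H := Subgroup.zpowers (γE ^ m))
    rw [Subgroup.zpowers_le]
    exact hγm
  have htfE : ∀ (g : EE γ) (n : ℕ), n ≠ 0 → g ^ n = 1 → g = 1 := by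
    intro g n hn h
    apply Subtype.ext
    apply htf g g.2
    rw [isOfFinOrder_iff_pow_eq_one]
    refine ⟨n, Nat.pos_of_ne_zero hn, ?_⟩
    have := congrArg Subtype.val h
    simpa using this
  have hab : ∀ a b : EE γ, a * b = b * a := by
    intro a b
    have hinj : ∀ g, MonoidHom.transferCenterPow (EE γ) g = 1 → g = 1 := by
      intro g hg
      have h1 := congrArg Subtype.val hg
      rw [MonoidHom.transferCenterPow_apply] at h1
      exact htfE g _ hfc.index_ne_zero h1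
    have h2 : MonoidHom.transferCenterPow (EE γ) (a * b * (b * a)⁻¹) = 1 := by
      have hcc : ∀ u w : Subgroup.center (EE γ), u * w = w * u := fun u w =>
        Subtype.ext ((Subgroup.mem_center_iff.mp w.2) u)
      rw [map_mul, map_inv, map_mul, map_mul, hcc (MonoidHom.transferCenterPow (EE γ) b),
        mul_inv_cancel]
    have h3 := hinj _ h2
    exact mul_inv_eq_one.mp h3
  -- cyclic
  have hfg : (Subgroup.zpowers γE).FiniteIndex := by
    apply Subgroup.finiteIndex_of_le (H := Subgroup.zpowers (γE ^ m))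
    rw [Subgroup.zpowers_le]
    exact Subgroup.pow_mem _ (Subgroup.mem_zpowers _) _
  have hnorm : (Subgroup.zpowers γE).Normal := by
    refine ⟨fun n hn g => ?_⟩
    rw [hab g n, mul_inv_cancel_right]
    exact hn
  set N := (Subgroup.zpowers γE).index with hN
  have hN0 : N ≠ 0 := hfg.index_ne_zero
  let φ : EE γ →* Subgroup.zpowers γE :=
    { toFun := fun g => ⟨g ^ N, Subgroup.pow_index_mem _ g⟩
      map_one' := by
        apply Subtype.ext
        simp
      map_mul' := by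
        intro a b
        apply Subtype.ext
        have : Commute a b := hab a b
        exact this.mul_pow N }
  have hφ : Function.Injective φ := by
    rw [injective_iff_map_eq_one]
    intro g hg
    exact htfE g N hN0 (congrArg Subtype.val hg)
  have hcyc : IsCyclic (EE γ) := isCyclic_of_injective φ hφ
  obtain ⟨x, hx⟩ := hcyc.exists_generator
  refine ⟨x, ?_, ?_⟩
  · obtain ⟨j, hj⟩ := Subgroup.mem_zpowers_iff.mp (hx γE)
    refine ⟨j, ?_⟩
    have := congrArg Subtype.val hj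
    simpa [hγE] using this
  · rintro g ⟨s, hs, t, ht, h⟩
    have hg : g ∈ EE γ := ⟨s, t, by omega, ht, h⟩
    obtain ⟨j, hj⟩ := Subgroup.mem_zpowers_iff.mp (hx ⟨g, hg⟩)
    rw [Subgroup.mem_zpowers_iff]
    refine ⟨j, ?_⟩
    have := congrArg Subtype.val hj
    simpa using this

end Pool.Agent.TH142.J487
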