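import Pool.Agent.TH927.CM.Goal
import Pool.Agent.H379R2.SW1

set_option autoImplicit false

namespace Pool.Agent.TH142.J884

open Finset Filter Topology
open Pool.Agent.TH927.CM Pool.Agent.W76.MO

/-- mean value bound -/
lemma cpow_tele {w : ℂ} (hw : 0 < w.re) {n : ℕ} (hn : 1 ≤ n) :
    ‖(n : ℂ) ^ (-w) - ((n + 1 : ℕ) : ℂ) ^ (-w)‖ ≤
      ‖w‖ / w.re * ((n : ℝ) ^ (-w.re) - ((n + 1 : ℕ) : ℝ) ^ (-w.re)) := by
  have hn0 : (0 : ℝ) < n := by exact_mod_cast hn
  have hf : ∀ x : ℝ, 0 < x → HasDerivAt (fun y : ℝ => (n : ℂ) ^ (-w) - (y : ℂ) ^ (-w))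
      (w * (x : ℂ) ^ (-w - 1)) x := by
    intro x hx
    have h3 : HasDerivAt (fun z : ℂ => z ^ (-w)) ((-w) * (x : ℂ) ^ (-w - 1)) (x : ℂ) := by
      have := (hasDerivAt_id ((x : ℝ) : ℂ)).cpow_const (c := -w)
        (Or.inl (by rw [id]; exact_mod_cast hx))
      simpa using this
    have h4 := h3.comp_ofReal.const_sub ((n : ℂ) ^ (-w))
    have e4 : -(-w * (x : ℂ) ^ (-w - 1)) = w * (x : ℂ) ^ (-w - 1) := by ring
    rw [e4] at h4
    exact h4
  have hB : ∀ x : ℝ, 0 < x → HasDerivAt (fun y : ℝ => ‖w‖ / w.re * ((n : ℝ) ^ (-w.re) -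
      y ^ (-w.re))) (‖w‖ * x ^ (-w.re - 1)) x := by
    intro x hx
    have h1 := Real.hasDerivAt_rpow_const (x := x) (p := -w.re) (Or.inl hx.ne')
    have h2 := (h1.const_sub ((n : ℝ) ^ (-w.re))).const_mul (‖w‖ / w.re)
    have e2 : ‖w‖ / w.re * -(-w.re * x ^ (-w.re - 1)) = ‖w‖ * x ^ (-w.re - 1) := by
      field_simp
    rw [e2] at h2
    exact h2
  have key := image_norm_le_of_norm_deriv_right_le_deriv_boundary' (a := (n : ℝ))
    (b := ((n + 1 : ℕ) : ℝ)) (f := fun y : ℝ => (n : ℂ) ^ (-w) - (y : ℂ) ^ (-w))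
    (f' := fun x : ℝ => w * (x : ℂ) ^ (-w - 1))
    (B := fun y : ℝ => ‖w‖ / w.re * ((n : ℝ) ^ (-w.re) - y ^ (-w.re)))
    (B' := fun x : ℝ => ‖w‖ * x ^ (-w.re - 1))
    (fun x hx => (hf x (lt_of_lt_of_le hn0 hx.1)).continuousAt.continuousWithinAt)
    (fun x hx => (hf x (lt_of_lt_of_le hn0 hx.1)).hasDerivWithinAt) (by simp)
    (fun x hx => (hB x (lt_of_lt_of_le hn0 hx.1)).continuousAt.continuousWithinAt)
    (fun x hx => (hB x (lt_of_lt_of_le hn0 hx.1)).hasDerivWithinAt) (by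
      intro x hx
      have hx0 : 0 < x := lt_of_lt_of_le hn0 hx.1
      rw [norm_mul, Complex.norm_cpow_eq_rpow_re_of_pos hx0]
      simp)
  have := key (x := ((n + 1 : ℕ) : ℝ)) ⟨by push_cast; linarith, le_rfl⟩
  simpa using this

variable {q : ℕ} [NeZero q] (χ : DirichletCharacter ℂ q)

/-- partial sums of the character -/
noncomputable def A (n : ℕ) : ℂ := ∑ k ∈ range (n + 1), χ (k : ZMod q)

lemma two_le (hχ : χ ≠ 1) : 2 ≤ q := by
  by_contra h
  have h0 := NeZero.ne q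
  obtain rfl : q = 1 := by omega
  exact hχ (Subsingleton.elim _ _)

lemma chi_zero (hχ : χ ≠ 1) : χ 0 = 0 := by
  have h2 := two_le χ hχ
  have : Fact (1 < q) := ⟨by omega⟩
  exact MulChar.map_nonunit χ not_isUnit_zero

lemma A_succ (n : ℕ) : A χ (n + 1) = A χ n + χ ((n + 1 : ℕ) : ZMod q) := by
  unfold A
  rw [Finset.sum_range_succ]

lemma A_zero (hχ : χ ≠ 1) : A χ 0 = 0 := by
  simp [A, chi_zero χ hχ]

lemma sum_period (hχ : χ ≠ 1) (n : ℕ) :
    ∑ j ∈ range q, χ ((n + j : ℕ) : ZMod q) = 0 := by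
  rw [← MulChar.sum_eq_zero_of_ne_one hχ]
  refine Finset.sum_nbij' (fun j => ((n + j : ℕ) : ZMod q)) (fun z => (z - n).val)
    ?_ ?_ ?_ ?_ ?_
  · intro j _; exact mem_univ _
  · intro z _; exact mem_range.mpr (ZMod.val_lt _)
  · intro j hj
    have hj' := mem_range.mp hj
    have : (((n + j : ℕ) : ZMod q) - n) = (j : ZMod q) := by
      push_cast
      simp
    rw [this, ZMod.val_natCast_of_lt hj']
  · intro z _
    push_cast
    rw [ZMod.natCast_zmod_val]
    simp
  · intro j _; rfl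

lemma range_bound (hχ : χ ≠ 1) (n : ℕ) : ‖∑ k ∈ range n, χ (k : ZMod q)‖ ≤ q := by
  have h0 : 0 < q := Nat.pos_of_ne_zero (NeZero.ne q)
  have h1 : ∀ m r : ℕ, ∑ k ∈ range (m * q + r), χ (k : ZMod q) =
      ∑ k ∈ range r, χ (k : ZMod q) := by
    intro m
    induction m with
    | zero => intro r; simp
    | succ m ih =>
      intro r
      rw [show (m + 1) * q + r = m * q + (r + q) by ring, ih, Finset.sum_range_add]
      rw [sum_period χ hχ r, add_zero]
  have h2 := h1 (n / q) (n % q)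
  rw [Nat.div_add_mod'] at h2
  rw [h2]
  refine (norm_sum_le _ _).trans ?_
  refine (Finset.sum_le_card_nsmul _ _ 1 fun k _ => DirichletCharacter.norm_le_one χ _).trans ?_
  rw [card_range, nsmul_eq_mul, mul_one]
  exact_mod_cast (Nat.mod_lt n h0).le

lemma A_bound (hχ : χ ≠ 1) (n : ℕ) : ‖A χ n‖ ≤ q := range_bound χ hχ (n + 1)

/-- terms after summation by parts -/
noncomputable def Fn (n : ℕ) (w : ℂ) : ℂ :=
  A χ (n + 1) * (((n + 1 : ℕ) : ℂ) ^ (-w) - ((n + 1 + 1 : ℕ) : ℂ) ^ (-w))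

lemma sum_Fn (hχ : χ ≠ 1) (w : ℂ) (N : ℕ) : ∑ n ∈ range N, Fn χ n w =
    (∑ k ∈ Icc 1 N, χ (k : ZMod q) * (k : ℂ) ^ (-w)) - A χ N * ((N + 1 : ℕ) : ℂ) ^ (-w) := by
  induction N with
  | zero => simp [A_zero χ hχ]
  | succ N ih =>
    rw [Finset.sum_range_succ, ih, Finset.sum_Icc_succ_top (by omega)]
    unfold Fn
    rw [A_succ]
    ring

lemma Fn_bound (hχ : χ ≠ 1) {w : ℂ} {σ R : ℝ} (hσ : 0 < σ) (hw : σ ≤ w.re) (hR : ‖w‖ ≤ R) (n : ℕ) :
    ‖Fn χ n w‖ ≤ q * (R * ((n + 1 : ℕ) : ℝ) ^ (-σ - 1)) := by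
  unfold Fn
  rw [norm_mul]
  refine mul_le_mul (A_bound χ hχ _) ?_ (norm_nonneg _) (Nat.cast_nonneg _)
  have hn : (1 : ℝ) ≤ ((n + 1 : ℕ) : ℝ) := by exact_mod_cast Nat.succ_le_succ (Nat.zero_le n)
  have h1 := Pool.Agent.H379R2.SW.cpow_diff (a := ((n + 1 : ℕ) : ℝ)) (b := ((n + 1 + 1 : ℕ) : ℝ))
    (by linarith) (by push_cast; linarith) (s := w) (by linarith)
  have h2 : (((n + 1 + 1 : ℕ) : ℝ) - ((n + 1 : ℕ) : ℝ)) = 1 := by push_cast; ring
  rw [h2, mul_one] at h1
  rw [norm_sub_rev]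
  simp only [Complex.ofReal_natCast] at h1
  refine h1.trans (mul_le_mul hR ?_ (by positivity) ((norm_nonneg w).trans hR))
  exact Real.rpow_le_rpow_of_exponent_le hn (by linarith)

lemma summable_bound {σ : ℝ} (hσ : 0 < σ) (R : ℝ) :
    Summable fun n : ℕ => (q : ℝ) * (R * ((n + 1 : ℕ) : ℝ) ^ (-σ - 1)) := by
  refine Summable.mul_left _ (Summable.mul_left _ ?_)
  have h1 : Summable fun n : ℕ => ((n : ℕ) : ℝ) ^ (-σ - 1) :=
    Real.summable_nat_rpow.mpr (by linarith)
  exact (summable_nat_add_iff 1).mpr h1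

/-- the L-function for `Re s > 0` -/
lemma L_eq (hχ : χ ≠ 1) (s : ℂ) (hs : 0 < s.re) :
    HasSum (fun n => Fn χ n s) (DirichletCharacter.LFunction χ s) := by
  have hsum : ∀ w : ℂ, 0 < w.re → Summable fun n => Fn χ n w := fun w hw =>
    Summable.of_norm_bounded (summable_bound (q := q) hw ‖w‖)
      (fun n => Fn_bound χ hχ hw le_rfl le_rfl n)
  -- right half plane
  have hright : ∀ w : ℂ, 1 < w.re → ∑' n, Fn χ n w = DirichletCharacter.LFunction χ w := by
    intro w hw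
    have h1 := (hsum w (by linarith)).hasSum.tendsto_sum_nat
    have h2 : Tendsto (fun N : ℕ => (∑ k ∈ Icc 1 N, χ (k : ZMod q) * (k : ℂ) ^ (-w)) -
        A χ N * ((N + 1 : ℕ) : ℂ) ^ (-w)) atTop (𝓝 (DirichletCharacter.LFunction χ w - 0)) := by
      refine Tendsto.sub ?_ ?_
      · have h3 := (DirichletCharacter.LSeriesSummable_of_one_lt_re χ hw).hasSum.tendsto_sum_nat
        have h4 : ∑' n, LSeries.term (fun n : ℕ => χ (n : ZMod q)) w n =
            DirichletCharacter.LFunction χ w := (DirichletCharacter.LFunction_eq_LSeries χ hw).symm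
        rw [h4] at h3
        have h5 := h3.comp (tendsto_add_atTop_nat 1)
        refine h5.congr fun N => ?_
        rw [Function.comp_apply, Finset.sum_range_succ', LSeries.term_zero, add_zero,
          Finset.range_eq_Ico, Finset.sum_Ico_add' (fun k => LSeries.term
            (fun n : ℕ => χ (n : ZMod q)) w k) 0 N 1]
        have : Ico (0 + 1) (N + 1) = Icc 1 N := by
          ext k; simp only [Finset.mem_Ico, Finset.mem_Icc]; omega
        rw [this]
        refine Finset.sum_congr rfl fun k hk => ?_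
        rw [Finset.mem_Icc] at hk
        rw [LSeries.term_of_ne_zero (by omega), Complex.cpow_neg, div_eq_mul_inv]
      · rw [tendsto_zero_iff_norm_tendsto_zero]
        have h6 : Tendsto (fun N : ℕ => (q : ℝ) * ((N + 1 : ℕ) : ℝ) ^ (-w.re)) atTop (𝓝 0) := by
          rw [← mul_zero (q : ℝ)]
          refine Tendsto.const_mul _ ?_
          have h7 := (tendsto_rpow_neg_atTop (y := w.re) (by linarith)).comp
            tendsto_natCast_atTop_atTop
          exact h7.comp (tendsto_add_atTop_nat 1)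
        refine squeeze_zero (fun _ => norm_nonneg _) (fun N => ?_) h6
        rw [norm_mul, Complex.norm_natCast_cpow_of_pos (by omega)]
        simp only [Complex.neg_re]
        exact mul_le_mul_of_nonneg_right (A_bound χ hχ N) (by positivity)
    rw [sub_zero] at h2
    refine tendsto_nhds_unique h1 (h2.congr fun N => ?_)
    rw [sum_Fn χ hχ]
  -- identity theorem
  set U : Set ℂ := {w | s.re / 2 < w.re} ∩ Metric.ball 0 (‖s‖ + 3) with hU
  have hUo : IsOpen U := (isOpen_lt continuous_const Complex.continuous_re).inter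
    Metric.isOpen_ball
  have hUc : IsPreconnected U :=
    ((convex_halfSpace_re_gt _).inter (convex_ball _ _)).isPreconnected
  have hd1 : DifferentiableOn ℂ (fun w => ∑' n, Fn χ n w) U := by
    refine Complex.differentiableOn_tsum_of_summable_norm
      (summable_bound (q := q) (σ := s.re / 2) (by linarith) (‖s‖ + 3)) (fun n => ?_) hUo ?_
    · intro w _
      refine DifferentiableAt.differentiableWithinAt ?_
      unfold Fn
      refine DifferentiableAt.const_mul (DifferentiableAt.sub ?_ ?_) _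
      · exact (differentiableAt_id.neg).const_cpow (Or.inl (by
          exact_mod_cast Nat.succ_ne_zero n))
      · exact (differentiableAt_id.neg).const_cpow (Or.inl (by
          exact_mod_cast Nat.succ_ne_zero (n + 1)))
    · intro n w hw
      have h1 : s.re / 2 < w.re := hw.1
      have h2 : ‖w‖ < ‖s‖ + 3 := by simpa using hw.2
      exact Fn_bound χ hχ (by linarith) h1.le h2.le n
  have hd2 : DifferentiableOn ℂ (DirichletCharacter.LFunction χ) U :=
    (DirichletCharacter.differentiable_LFunction hχ).differentiableOn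
  have ha1 : AnalyticOnNhd ℂ (fun w => ∑' n, Fn χ n w) U := hd1.analyticOnNhd hUo
  have ha2 : AnalyticOnNhd ℂ (DirichletCharacter.LFunction χ) U := hd2.analyticOnNhd hUo
  -- a point to the right
  have hsn : s.re ≤ ‖s‖ := Complex.re_le_norm s
  set z0 : ℂ := ((1 + s.re / 2 + 1 / 2 : ℝ) : ℂ) with hz0
  have hz0re : z0.re = 1 + s.re / 2 + 1 / 2 := by rw [hz0, Complex.ofReal_re]
  have hz0U : z0 ∈ U := by
    refine ⟨?_, ?_⟩
    · change s.re / 2 < z0.re
      rw [hz0re]; linarith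
    · rw [Metric.mem_ball, dist_zero_right, hz0, Complex.norm_real, Real.norm_of_nonneg
        (by linarith)]
      linarith
  have hev : (fun w => ∑' n, Fn χ n w) =ᶠ[𝓝 z0] DirichletCharacter.LFunction χ := by
    have : {w : ℂ | 1 < w.re} ∈ 𝓝 z0 := by
      refine (isOpen_lt continuous_const Complex.continuous_re).mem_nhds ?_
      change 1 < z0.re
      rw [hz0re]; linarith
    filter_upwards [this] with w hw
    exact hright w hw
  have heq := ha1.eqOn_of_preconnected_of_eventuallyEq ha2 hUc hz0U hev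
  have hsU : s ∈ U := by
    refine ⟨?_, ?_⟩
    · change s.re / 2 < s.re
      linarith
    · rw [Metric.mem_ball, dist_zero_right]
      linarith
  have := heq hsU
  simp only at this
  rw [← this]
  exact (hsum s hs).hasSum

/-- the tail -/
lemma tail (hχ : χ ≠ 1) (s : ℂ) (hs : 0 < s.re) (N : ℕ) :
    ‖DirichletCharacter.LFunction χ s - ∑ k ∈ Icc 1 N, χ (k : ZMod q) * (k : ℂ) ^ (-s)‖ ≤
      (q * (‖s‖ / s.re) + q) * ((N + 1 : ℕ) : ℝ) ^ (-s.re) := by
  have h1 := (L_eq χ hχ s hs).tendsto_sum_nat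
  have h2 : Tendsto (fun M : ℕ => ∑ n ∈ range (N + M), Fn χ n s - ∑ n ∈ range N, Fn χ n s)
      atTop (𝓝 (DirichletCharacter.LFunction χ s - ∑ n ∈ range N, Fn χ n s)) := by
    refine Tendsto.sub_const ?_ _
    have h3 := h1.comp (tendsto_add_atTop_nat N)
    refine h3.congr fun M => ?_
    rw [Function.comp_apply, add_comm]
  have h3 : ∀ M : ℕ, ‖∑ n ∈ range (N + M), Fn χ n s - ∑ n ∈ range N, Fn χ n s‖ ≤
      q * (‖s‖ / s.re) * (((N + 1 : ℕ) : ℝ) ^ (-s.re) - ((N + M + 1 : ℕ) : ℝ) ^ (-s.re)) := by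
    intro M
    induction M with
    | zero => simp
    | succ M ih =>
      rw [← add_assoc, Finset.sum_range_succ]
      have e : ∑ n ∈ range (N + M), Fn χ n s + Fn χ (N + M) s - ∑ n ∈ range N, Fn χ n s =
          (∑ n ∈ range (N + M), Fn χ n s - ∑ n ∈ range N, Fn χ n s) + Fn χ (N + M) s := by ring
      rw [e]
      refine (norm_add_le _ _).trans ?_
      have h4 : ‖Fn χ (N + M) s‖ ≤ q * (‖s‖ / s.re) * (((N + M + 1 : ℕ) : ℝ) ^ (-s.re) -
          ((N + M + 1 + 1 : ℕ) : ℝ) ^ (-s.re)) := by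
        unfold Fn
        rw [norm_mul, mul_assoc]
        refine mul_le_mul (A_bound χ hχ _) ?_ (norm_nonneg _) (Nat.cast_nonneg _)
        exact cpow_tele hs (by omega)
      have e2 : q * (‖s‖ / s.re) * (((N + 1 : ℕ) : ℝ) ^ (-s.re) -
          ((N + M + 1 + 1 : ℕ) : ℝ) ^ (-s.re)) =
          q * (‖s‖ / s.re) * (((N + 1 : ℕ) : ℝ) ^ (-s.re) - ((N + M + 1 : ℕ) : ℝ) ^ (-s.re)) +
          q * (‖s‖ / s.re) * (((N + M + 1 : ℕ) : ℝ) ^ (-s.re) -
            ((N + M + 1 + 1 : ℕ) : ℝ) ^ (-s.re)) := by ring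
      rw [e2]
      exact add_le_add ih h4
  have h4 : ‖DirichletCharacter.LFunction χ s - ∑ n ∈ range N, Fn χ n s‖ ≤
      q * (‖s‖ / s.re) * ((N + 1 : ℕ) : ℝ) ^ (-s.re) := by
    refine le_of_tendsto h2.norm (Eventually.of_forall fun M => (h3 M).trans ?_)
    refine mul_le_mul_of_nonneg_left ?_ (by positivity)
    have : 0 ≤ ((N + M + 1 : ℕ) : ℝ) ^ (-s.re) := by positivity
    linarith
  rw [sum_Fn χ hχ] at h4
  have e : DirichletCharacter.LFunction χ s - ∑ k ∈ Icc 1 N, χ (k : ZMod q) * (k : ℂ) ^ (-s) =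
      (DirichletCharacter.LFunction χ s - ((∑ k ∈ Icc 1 N, χ (k : ZMod q) * (k : ℂ) ^ (-s)) -
        A χ N * ((N + 1 : ℕ) : ℂ) ^ (-s))) - A χ N * ((N + 1 : ℕ) : ℂ) ^ (-s) := by ring
  rw [e]
  refine (norm_sub_le _ _).trans ?_
  rw [add_mul]
  refine add_le_add h4 ?_
  rw [norm_mul, Complex.norm_natCast_cpow_of_pos (by omega), Complex.neg_re]
  exact mul_le_mul_of_nonneg_right (A_bound χ hχ N) (by positivity)

omit [NeZero q] in
theorem CHI_c : Pool.Agent.TH927.CM.T_CHI := by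
  intro q _ χ hχ s hs hL
  have hs0 : 0 < s.re := by linarith
  have hq : (0 : ℝ) < q := by exact_mod_cast Nat.pos_of_ne_zero (NeZero.ne q)
  have htail : ∀ N : ℕ, ‖∑ k ∈ Icc 1 N, χ (k : ZMod q) * (k : ℂ) ^ (-s)‖ ≤
      (q * (‖s‖ / s.re) + q) * ((N + 1 : ℕ) : ℝ) ^ (-s.re) := by
    intro N
    have := tail χ hχ s hs0 N
    rwa [hL, zero_sub, norm_neg] at this
  refine ⟨fun n => χ (n : ZMod q) * (n : ℂ) ^ (-s), ⟨by simp, ?_, ?_⟩, s.re - 1 / 2,
    q * (‖s‖ / s.re) + q, by linarith, by positivity, ?_⟩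
  · intro m n _ _
    beta_reduce
    rw [Nat.cast_mul, Nat.cast_mul, map_mul, Complex.natCast_mul_natCast_cpow]
    ring
  · rw [tendsto_zero_iff_norm_tendsto_zero]
    have h6 : Tendsto (fun N : ℕ => (q * (‖s‖ / s.re) + q) * ((N + 1 : ℕ) : ℝ) ^ (-s.re)) atTop
        (𝓝 0) := by
      rw [← mul_zero (q * (‖s‖ / s.re) + q)]
      refine Tendsto.const_mul _ ?_
      have h7 := (tendsto_rpow_neg_atTop (y := s.re) hs0).comp tendsto_natCast_atTop_atTop
      exact h7.comp (tendsto_add_atTop_nat 1)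
    exact squeeze_zero (fun _ => norm_nonneg _) htail h6
  · intro x hx
    unfold partialSum
    refine (htail ⌊x⌋₊).trans ?_
    refine mul_le_mul_of_nonneg_left ?_ (by positivity)
    rw [show -(1 / 2 : ℝ) - (s.re - 1 / 2) = -s.re by ring]
    refine Real.rpow_le_rpow_of_nonpos (by linarith) ?_ (by linarith)
    push_cast
    exact (Nat.lt_floor_add_one x).le

end Pool.Agent.TH142.J884
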